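import Mathlib

set_option autoImplicit false

universe u

namespace Pool.Agent.ZFM

/-- The relation symbols of the language of set theory: one binary symbol. -/
inductive MemSymb : ℕ → Type
  | mem : MemSymb 2

/-- The first-order language of set theory: one binary relation symbol and nothing else. -/
def LSet : FirstOrder.Language.{0, 0} := ⟨fun _ => Empty, MemSymb⟩

/-- The membership symbol of the language of set theory. -/
def memSymb : LSet.Relations 2 := MemSymb.mem

section Defs

variable {M : Type u} [FirstOrder.Language.Structure LSet M]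

/-- `Mem x y` says that `x` is an element of `y` in the structure `M`. -/
def Mem (x y : M) : Prop := FirstOrder.Language.Structure.RelMap memSymb ![x, y]

variable (M) in
/-- `M` is a model of the Zermelo-Fraenkel axioms ZF (without choice). In the two schemas,
definable means first-order definable in `M` with parameters from `M`. -/
class ModelZF : Prop where
  extensionality : ∀ x y : M, (∀ z, Mem z x ↔ Mem z y) → x = y
  foundation : ∀ x : M, (∃ y, Mem y x) → ∃ y, Mem y x ∧ ∀ z, Mem z x → ¬ Mem z y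
  pairing : ∀ x y : M, ∃ z, ∀ w, Mem w z ↔ w = x ∨ w = y
  union : ∀ x : M, ∃ y, ∀ z, Mem z y ↔ ∃ w, Mem w x ∧ Mem z w
  powerset : ∀ x : M, ∃ y, ∀ z, Mem z y ↔ ∀ w, Mem w z → Mem w x
  infinity : ∃ x : M, (∃ e, Mem e x ∧ ∀ z, ¬ Mem z e) ∧
    ∀ y, Mem y x → ∃ s, Mem s x ∧ ∀ z, Mem z s ↔ Mem z y ∨ z = y
  separation : ∀ P : Set M, (Set.univ : Set M).Definable₁ LSet P →
    ∀ x : M, ∃ y, ∀ z, Mem z y ↔ Mem z x ∧ z ∈ P
  replacement : ∀ R : Set (M × M), (Set.univ : Set M).Definable₂ LSet R →
    ∀ x : M, (∀ y, Mem y x → ∃! z, (y, z) ∈ R) →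
      ∃ w, ∀ z, Mem z w ↔ ∃ y, Mem y x ∧ (y, z) ∈ R

/-- `p` is the ordered pair of `x` and `y` (Kuratowski). -/
def IsOPair (p x y : M) : Prop :=
  ∀ w, Mem w p ↔ ((∀ v, Mem v w ↔ v = x) ∨ (∀ v, Mem v w ↔ (v = x ∨ v = y)))

/-- The ordered pair of `x` and `y` is an element of `f`. -/
def PairIn (f x y : M) : Prop := ∃ p, Mem p f ∧ IsOPair p x y

/-- `f` is a function from `a` to `b`. -/
def IsFunction (f a b : M) : Prop :=
  (∀ p, Mem p f → ∃ x y, Mem x a ∧ Mem y b ∧ IsOPair p x y) ∧
    ∀ x, Mem x a → ∃! y, PairIn f x y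

/-- `f` is a bijection from `a` to `b`. -/
def IsBijection (f a b : M) : Prop :=
  IsFunction f a b ∧ ∀ y, Mem y b → ∃! x, PairIn f x y

/-- `I` contains the empty set and is closed under the successor `y ∪ {y}`. -/
def IsInductive (I : M) : Prop :=
  (∃ e, Mem e I ∧ ∀ z, ¬ Mem z e) ∧
    ∀ y, Mem y I → ∃ s, Mem s I ∧ ∀ z, Mem z s ↔ (Mem z y ∨ z = y)

/-- `n` is a natural number of `M` (an element of every inductive set). -/
def IsNatural (n : M) : Prop := ∀ I, IsInductive I → Mem n I

/-- `x` is finite in `M`: some bijection maps a natural number of `M` onto `x`. -/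
def IsFinite (x : M) : Prop := ∃ n f, IsNatural n ∧ IsBijection f n x

/-- `P` is a finitary partition of `A` in `M`: its blocks are nonempty finite subsets of `A`,
any two of them that meet are equal, and they cover `A`. -/
def IsFinitaryPartition (P A : M) : Prop :=
  (∀ B, Mem B P → (∃ x, Mem x B) ∧ (∀ x, Mem x B → Mem x A) ∧ IsFinite B) ∧
    (∀ B C x, Mem B P → Mem C P → Mem x B → Mem x C → B = C) ∧
      ∀ x, Mem x A → ∃ B, Mem B P ∧ Mem x B

/-- `f` is finite-to-one in `M`: for every `z`, the set `F` of all `x` with `(x, z) ∈ f`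
is finite. -/
def IsFiniteToOne (f : M) : Prop :=
  ∀ z F, (∀ x, Mem x F ↔ PairIn f x z) → IsFinite F

end Defs

end Pool.Agent.ZFM
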