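import Pool.Agent.ZFM.FinSets

set_option autoImplicit false

universe u

namespace Pool.Agent.ZFM

variable {V : Type u} [FirstOrder.Language.Structure LSet V] [ModelZF V]

theorem bij_inv {f a b : V} (hf : Bij f a b) : ∃ g, Bij g b a := by
  refine ⟨sep (prod b a) (fun p => ∃ x y, p = opair y x ∧ opair x y ∈ f), ⟨?_, ?_⟩, ?_⟩
  · intro p hp
    rw [mem_sep, mem_prod] at hp
    exact hp.1
  · intro y hy
    obtain ⟨x, hx, hu⟩ := hf.2 y hy
    refine ⟨x, ?_, ?_⟩
    · show opair y x ∈ _
      rw [mem_sep, opair_mem_prod]
      exact ⟨⟨hy, (hf.1.mem_iff.1 hx).1⟩, x, y, rfl, hx⟩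
    · intro x' hx'
      rw [mem_sep] at hx'
      obtain ⟨_, x1, y1, he, h1⟩ := hx'
      rw [opair_inj] at he
      obtain ⟨rfl, rfl⟩ := he
      exact hu _ h1
  · intro x hx
    obtain ⟨y, hy, hu⟩ := hf.1.2 x hx
    refine ⟨y, ?_, ?_⟩
    · show opair y x ∈ _
      rw [mem_sep, opair_mem_prod]
      have := hf.1.mem_iff.1 hy
      exact ⟨⟨this.2 ▸ hf.1.app_mem hx, hx⟩, x, y, rfl, hy⟩
    · intro y' hy'
      rw [mem_sep] at hy'
      obtain ⟨_, x1, y1, he, h1⟩ := hy'
      rw [opair_inj] at he
      obtain ⟨rfl, rfl⟩ := he
      exact hu _ h1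

/-- The value `c` if `u = l` and `u` otherwise. -/
noncomputable def swp (l c u : V) : V :=
  sep (un u c) (fun z => (u = l ∧ z ∈ c) ∨ (¬ u = l ∧ z ∈ u))

instance DF.instSwp {s t r : (ℕ → V) → V} [hs : DF s] [ht : DF t] [hr : DF r] :
    DF (fun g => swp (s g) (t g) (r g)) := by
  refine DF.plug3 (F := fun x y z => swp x y z) ?_ hs ht hr
  unfold swp
  infer_instance

theorem swp_eq (l c : V) : swp l c l = c := by
  apply ext; intro z; unfold swp; rw [mem_sep, mem_un]; tauto

theorem swp_ne {l c u : V} (h : u ≠ l) : swp l c u = u := by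
  apply ext; intro z; unfold swp; rw [mem_sep, mem_un]; tauto

/-- Pigeonhole principle. -/
theorem nat_bij_eq : ∀ n, n ∈ (om : V) → ∀ m, m ∈ (om : V) → ∀ f, Bij f n m → n = m := by
  refine om_ind (P := fun n => ∀ m, m ∈ (om : V) → ∀ f, Bij f n m → n = m) ?_ ?_
  · intro m _ f hf
    exact (bij_emp hf).symm
  · intro n hn ih m hm f hf
    have hfn : app f n ∈ m := hf.1.app_mem (by simp)
    rcases om_cases hm with rfl | ⟨l, hl, rfl⟩
    · simp at hfn
    · have h1 := bij_restrict hn hf
      have h2 : Bij (lam (sdf (suc l) (sing (app f n))) (fun u => swp l (app f n) u))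
          (sdf (suc l) (sing (app f n))) l := by
        refine Bij.mk' (lam_fn ?_) ?_ ?_
        · intro u hu
          rw [mem_sdf, mem_suc, mem_sing] at hu
          by_cases hul : u = l
          · subst hul
            rw [swp_eq]
            rw [mem_suc] at hfn
            rcases hfn with h | h
            · exact h
            · exact absurd h.symm hu.2
          · rw [swp_ne hul]
            rcases hu.1 with h | h
            · exact h
            · exact absurd h hul
        · intro u hu v hv h
          rw [app_lam hu, app_lam hv] at h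
          rw [mem_sdf, mem_suc, mem_sing] at hu hv
          by_cases hul : u = l
          · subst hul
            by_cases hvl : v = u
            · exact hvl.symm
            · rw [swp_eq, swp_ne hvl] at h
              exact absurd h.symm hv.2
          · by_cases hvl : v = l
            · subst hvl
              rw [swp_eq, swp_ne hul] at h
              exact absurd h hu.2
            · rw [swp_ne hul, swp_ne hvl] at h
              exact h
        · intro y hy
          by_cases hyc : y = app f n
          · have hlc : l ≠ app f n := by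
              intro h
              rw [← h] at hyc
              rw [hyc] at hy
              exact nat_irrefl hl hy
            have : l ∈ sdf (suc l) (sing (app f n)) := by
              rw [mem_sdf, mem_suc, mem_sing]
              exact ⟨Or.inr rfl, hlc⟩
            refine ⟨l, this, ?_⟩
            rw [app_lam this, swp_eq, hyc]
          · have hyl : y ≠ l := by
              rintro rfl
              exact nat_irrefl hl hy
            have : y ∈ sdf (suc l) (sing (app f n)) := by
              rw [mem_sdf, mem_suc, mem_sing]
              exact ⟨Or.inl hy, hyc⟩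
            refine ⟨y, this, ?_⟩
            rw [app_lam this, swp_ne hyl]
      have := ih l hl _ (bij_trans h1 h2)
      rw [this]

theorem bij_unique {n m f g x : V} (hn : n ∈ (om : V)) (hm : m ∈ (om : V)) (hf : Bij f n x)
    (hg : Bij g m x) : n = m := by
  obtain ⟨g', hg'⟩ := bij_inv hg
  exact nat_bij_eq n hn m hm _ (bij_trans hf hg')

/-- The number of elements of a finite set. -/
noncomputable def card (x : V) : V := sU (sep om (fun n => ∃ f, Bij f n x))

instance DF.instCard {s : (ℕ → V) → V} [hs : DF s] : DF (fun g => card (s g)) := by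
  refine DF.plug1 (F := fun x => card x) ?_ hs
  unfold card
  infer_instance

theorem card_eq {n f x : V} (hn : n ∈ (om : V)) (hf : Bij f n x) : card x = n := by
  have : sep om (fun n => ∃ f, Bij f n x) = sing n := by
    apply ext; intro m
    rw [mem_sep, mem_sing]
    constructor
    · rintro ⟨hm, g, hg⟩
      exact bij_unique hm hn hg hf
    · rintro rfl
      exact ⟨hn, f, hf⟩
  unfold card
  rw [this]
  apply ext; intro z; simp

theorem card_mem {x : V} (hx : Fin' x) : card x ∈ (om : V) := by
  obtain ⟨n, f, hn, hf⟩ := hx
  rw [card_eq hn hf]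
  exact hn

theorem card_bij {x : V} (hx : Fin' x) : ∃ f, Bij f (card x) x := by
  obtain ⟨n, f, hn, hf⟩ := hx
  rw [card_eq hn hf]
  exact ⟨f, hf⟩

theorem card_ins {x a : V} (hx : Fin' x) (ha : ¬ a ∈ x) : card (un x (sing a)) = suc (card x) := by
  obtain ⟨f, hf⟩ := card_bij hx
  exact card_eq (suc_mem_om (card_mem hx)) (bij_extend (card_mem hx) hf ha)

theorem card_emp : card (emp : V) = emp := by
  have : Bij (emp : V) emp emp := ⟨⟨by simp, by simp⟩, by simp⟩
  exact card_eq emp_mem_om this

theorem card_mono {y : V} (hy : Fin' y) : ∀ x, sub x y → card x ∈ suc (card y) := by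
  refine fin_ind (P := fun y => ∀ x, sub x y → card x ∈ suc (card y)) ?_ ?_ hy
  · intro x hx
    have : x = emp := by
      rw [eq_emp_iff]; intro z hz; exact not_mem_emp z (hx z hz)
    rw [this]; simp
  · intro y a hy ih ha x hx
    rw [card_ins hy ha]
    by_cases hax : a ∈ x
    · have h1 : sub (sdf x (sing a)) y := by
        intro z hz
        rw [mem_sdf, mem_sing] at hz
        have := hx z hz.1
        rw [mem_un, mem_sing] at this
        tauto
      have h2 := card_ins (fin_sub hy _ h1) (a := a) (by simp)
      rw [sdf_un_sing hax] at h2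
      rw [h2]
      exact suc_mem_suc (suc_mem_om (card_mem hy)) (ih _ h1)
    · have h1 : sub x y := by
        intro z hz
        have := hx z hz
        rw [mem_un, mem_sing] at this
        rcases this with h | h
        · exact h
        · exact absurd (h ▸ hz) hax
      rw [mem_suc]
      exact Or.inl (ih x h1)

theorem exists_card {A : V} (hA : ¬ Fin' A) : ∀ n, n ∈ (om : V) → ∃ x, sub x A ∧ Fin' x ∧ card x = n := by
  refine om_ind (P := fun n => ∃ x, sub x A ∧ Fin' x ∧ card x = n) ?_ ?_
  · exact ⟨emp, fun z hz => absurd hz (not_mem_emp z), fin_emp, card_emp⟩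
  · rintro n _ ⟨x, hx, hfx, hc⟩
    have : ∃ a, a ∈ A ∧ ¬ a ∈ x := by
      by_contra hcon
      push Not at hcon
      exact hA (fin_sub hfx A hcon)
    obtain ⟨a, haA, hax⟩ := this
    refine ⟨un x (sing a), ?_, fin_ins hfx a, ?_⟩
    · intro z hz
      rw [mem_un, mem_sing] at hz
      rcases hz with hz | rfl
      · exact hx z hz
      · exact haA
    · rw [card_ins hfx hax, hc]

end Pool.Agent.ZFM
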