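import Pool.Agent.ZFM.Basic

set_option autoImplicit false

universe u

namespace Pool.Agent.ZFM

section

variable {V : Type u}

/-- push a value on an environment -/
def push (x : V) (e : ℕ → V) : ℕ → V
  | 0 => x
  | (n + 1) => e n

/-- forget the first value of an environment -/
def tl (e : ℕ → V) : ℕ → V := fun n => e (n + 1)

@[simp] theorem tl_push (x : V) (e : ℕ → V) : tl (push x e) = e := rfl
@[simp] theorem push_zero (x : V) (e : ℕ → V) : push x e 0 = x := rfl

/-- Variables and constants in a context. -/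
def VarP (f : (ℕ → V) → V) : Prop := (∃ c, ∀ e, f e = c) ∨ ∃ i, ∀ e, f e = e i

/-- Substitutions of variables and constants for variables. -/
class Sub (σ : (ℕ → V) → (ℕ → V)) : Prop where
  out : ∀ i, VarP (fun e => σ e i)

end

/-- Definable predicates in a context. -/
@[class]
inductive D {V : Type u} [FirstOrder.Language.Structure LSet V] :
    ((ℕ → V) → Prop) → Prop
  | mem {s t : (ℕ → V) → V} : VarP s → VarP t → D (fun g => Mem (s g) (t g))
  | eq {s t : (ℕ → V) → V} : VarP s → VarP t → D (fun g => s g = t g)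
  | fls : D (fun _ => False)
  | imp {P Q : (ℕ → V) → Prop} : D P → D Q → D (fun g => P g → Q g)
  | all {P : (ℕ → V) → Prop} : D P → D (fun g => ∀ x, P (push x g))

section

variable {V : Type u} [FirstOrder.Language.Structure LSet V]

theorem VarP.comp {f : (ℕ → V) → V} {σ : (ℕ → V) → (ℕ → V)} (h : VarP f) [hσ : Sub σ] :
    VarP (fun e => f (σ e)) := by
  rcases h with ⟨c, hc⟩ | ⟨i, hi⟩
  · exact Or.inl ⟨c, fun e => hc _⟩
  · rcases hσ.out i with ⟨c, hc⟩ | ⟨j, hj⟩
    · exact Or.inl ⟨c, fun e => (hi _).trans (hc e)⟩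
    · exact Or.inr ⟨j, fun e => (hi _).trans (hj e)⟩

theorem D.congr {P Q : (ℕ → V) → Prop} (h : D P) (e : ∀ g, P g ↔ Q g) : D Q := by
  have : P = Q := funext fun g => propext (e g)
  exact this ▸ h

instance Sub.id : Sub (fun g : (ℕ → V) => g) := ⟨fun i => Or.inr ⟨i, fun _ => rfl⟩⟩

instance Sub.tl {σ : (ℕ → V) → (ℕ → V)} [h : Sub σ] : Sub (fun g => tl (σ g)) :=
  ⟨fun i => h.out (i+1)⟩

instance Sub.tl' : Sub (Pool.Agent.ZFM.tl : (ℕ → V) → (ℕ → V)) :=
  ⟨fun i => Or.inr ⟨i+1, fun _ => rfl⟩⟩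

theorem Sub.lift {σ : (ℕ → V) → (ℕ → V)} (h : Sub σ) :
    Sub (fun g : (ℕ → V) => push (g 0) (σ (Pool.Agent.ZFM.tl g))) := by
  constructor
  intro i
  cases i with
  | zero => exact Or.inr ⟨0, fun _ => rfl⟩
  | succ n =>
    rcases h.out n with ⟨c, hc⟩ | ⟨j, hj⟩
    · exact Or.inl ⟨c, fun e => hc _⟩
    · exact Or.inr ⟨j+1, fun e => hj _⟩

theorem D.subst {P : (ℕ → V) → Prop} (hP : D P) : ∀ {σ : (ℕ → V) → (ℕ → V)}, Sub σ →
    D (fun g => P (σ g)) := by
  induction hP with
  | mem hs ht => intro σ hσ; exact D.mem hs.comp ht.comp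
  | eq hs ht => intro σ hσ; exact D.eq hs.comp ht.comp
  | fls => intro σ hσ; exact D.fls
  | imp _ _ ih1 ih2 => intro σ hσ; exact D.imp (ih1 hσ) (ih2 hσ)
  | all _ ih => intro σ hσ; exact D.all (ih hσ.lift)

instance D.instFalse : D (fun _ : ℕ → V => False) := D.fls

instance D.instImp {P Q : (ℕ → V) → Prop} [h1 : D P] [h2 : D Q] : D (fun g => P g → Q g) :=
  D.imp h1 h2

instance D.instNot {P : (ℕ → V) → Prop} [h1 : D P] : D (fun g => ¬ P g) := D.imp h1 D.fls

instance D.instTrue : D (fun _ : (ℕ → V) => True) := (D.imp D.fls D.fls).congr (by simp)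

instance D.instOr {P Q : (ℕ → V) → Prop} [h1 : D P] [h2 : D Q] : D (fun g => P g ∨ Q g) :=
  (D.imp (D.imp h1 D.fls) h2).congr (fun g => by tauto)

instance D.instAnd {P Q : (ℕ → V) → Prop} [h1 : D P] [h2 : D Q] : D (fun g => P g ∧ Q g) :=
  (D.imp (D.imp h1 (D.imp h2 D.fls)) D.fls).congr (fun g => by tauto)

instance D.instIff {P Q : (ℕ → V) → Prop} [h1 : D P] [h2 : D Q] : D (fun g => P g ↔ Q g) :=
  (D.instAnd (P := fun g => P g → Q g) (Q := fun g => Q g → P g)).congr (fun g => by tauto)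

instance D.instAll {P : (ℕ → V) → V → Prop} [h : D (fun g => P (tl g) (g 0))] :
    D (fun g => ∀ x, P g x) := D.all h

instance D.instEx {P : (ℕ → V) → V → Prop} [h : D (fun g => P (tl g) (g 0))] :
    D (fun g => ∃ x, P g x) :=
  (D.imp (D.all (D.imp h D.fls)) D.fls).congr (fun g => by simp)

/-- Definable functions in a context. -/
class DF (f : (ℕ → V) → V) : Prop where
  out : D (fun g => g 0 = f (tl g))

theorem DF.ofVar {f : (ℕ → V) → V} (h : VarP f) : DF f :=
  ⟨D.eq (Or.inr ⟨0, fun _ => rfl⟩) (h.comp (σ := tl) (hσ := Sub.tl (σ := fun g => g)))⟩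

instance DF.instConst (c : V) : DF (fun _ : (ℕ → V) => c) := DF.ofVar (Or.inl ⟨c, fun _ => rfl⟩)

instance DF.instVar {σ : (ℕ → V) → (ℕ → V)} [h : Sub σ] (i : ℕ) : DF (fun g => σ g i) :=
  DF.ofVar (h.out i)

/-- Plugging a definable function in a definable predicate. -/
theorem D.plug {P : (ℕ → V) → V → Prop} {f : (ℕ → V) → V} (hP : D (fun g => P (tl g) (g 0)))
    (hf : DF f) : D (fun g => P g (f g)) := by
  have h1 := hf.out
  have h2 : D (fun g => ∃ x, x = f g ∧ P g x) := D.instEx (h := D.instAnd (h1 := h1) (h2 := hP))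
  refine h2.congr ?_
  intro g
  constructor
  · rintro ⟨x, rfl, h⟩; exact h
  · intro h; exact ⟨_, rfl, h⟩

theorem DF.comp {f : (ℕ → V) → V} (h : DF f) {σ : (ℕ → V) → (ℕ → V)} (hσ : Sub σ) :
    DF (fun g => f (σ g)) := by
  constructor
  have := h.out.subst hσ.lift
  exact this

/-- Plug one definable function in a unary predicate. -/
theorem D.plug1 {P : V → Prop} (hP : D (fun g => P (g 0))) {f : (ℕ → V) → V} (hf : DF f) :
    D (fun g => P (f g)) :=
  D.plug (P := fun _ x => P x) hP hf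

/-- Plug two definable functions in a binary predicate. -/
theorem D.plug2 {P : V → V → Prop} (hP : D (fun g => P (g 0) (g 1))) {f h : (ℕ → V) → V}
    (hf : DF f) (hh : DF h) : D (fun g => P (f g) (h g)) := by
  refine D.plug (P := fun g x => P x (h g)) ?_ hf
  have h' : DF (fun g => h (tl g)) := hh.comp (Sub.tl (σ := fun g => g))
  refine D.plug (P := fun g x => P (g 0) x) (f := fun g => h (tl g)) ?_ h'
  have hs : Sub (fun g : ℕ → V => push (g 1) (push (g 0) (fun n => g (n+2)))) := by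
    constructor
    intro i
    match i with
    | 0 => exact Or.inr ⟨1, fun _ => rfl⟩
    | 1 => exact Or.inr ⟨0, fun _ => rfl⟩
    | (n+2) => exact Or.inr ⟨n+2, fun _ => rfl⟩
  exact hP.subst hs

instance D.instMem {s t : (ℕ → V) → V} [hs : DF s] [ht : DF t] :
    D (fun g => Mem (s g) (t g)) :=
  D.plug2 (P := Mem) (D.mem (Or.inr ⟨0, fun _ => rfl⟩) (Or.inr ⟨1, fun _ => rfl⟩)) hs ht

instance D.instEq {s t : (ℕ → V) → V} [hs : DF s] [ht : DF t] :
    D (fun g => s g = t g) :=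
  D.plug2 (P := fun x y => x = y) (D.eq (Or.inr ⟨0, fun _ => rfl⟩) (Or.inr ⟨1, fun _ => rfl⟩)) hs ht

example (a b : V) : D (fun g : ℕ → V => ∀ x, Mem x a → ∃ y, Mem y b ∧ ∀ z, Mem z x ↔ (Mem z y ∨ z = g 0)) := by
  infer_instance



theorem D.exists_formula {P : (ℕ → V) → Prop} (h : D P) : ∀ (n : ℕ) (enc : (Fin n → V) → (ℕ → V)),
    (∀ i, (∃ c, ∀ xs, enc xs i = c) ∨ ∃ j, ∀ xs, enc xs i = xs j) →
    ∃ φ : LSet.BoundedFormula V n, ∀ xs, φ.Realize id xs ↔ P (enc xs) := by
  have tm : ∀ (f : (ℕ → V) → V), VarP f → ∀ (n : ℕ) (enc : (Fin n → V) → (ℕ → V)),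
      (∀ i, (∃ c, ∀ xs, enc xs i = c) ∨ ∃ j, ∀ xs, enc xs i = xs j) →
      ∃ t : LSet.Term (V ⊕ Fin n), ∀ xs, t.realize (Sum.elim id xs) = f (enc xs) := by
    intro f hf n enc henc
    rcases hf with ⟨c, hc⟩ | ⟨i, hi⟩
    · exact ⟨FirstOrder.Language.Term.var (Sum.inl c), fun xs => by simp [hc]⟩
    · rcases henc i with ⟨c, hc⟩ | ⟨j, hj⟩
      · exact ⟨FirstOrder.Language.Term.var (Sum.inl c), fun xs => by simp [hi, hc]⟩
      · exact ⟨FirstOrder.Language.Term.var (Sum.inr j), fun xs => by simp [hi, hj]⟩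
  induction h with
  | mem hs ht =>
    intro n enc henc
    obtain ⟨a, ha⟩ := tm _ hs n enc henc
    obtain ⟨b, hb⟩ := tm _ ht n enc henc
    refine ⟨memSymb.boundedFormula₂ a b, fun xs => ?_⟩
    rw [FirstOrder.Language.BoundedFormula.realize_rel₂, ha, hb]
    rfl
  | eq hs ht =>
    intro n enc henc
    obtain ⟨a, ha⟩ := tm _ hs n enc henc
    obtain ⟨b, hb⟩ := tm _ ht n enc henc
    refine ⟨FirstOrder.Language.Term.bdEqual a b, fun xs => ?_⟩
    rw [FirstOrder.Language.BoundedFormula.realize_bdEqual, ha, hb]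
  | fls => intro n enc _; exact ⟨⊥, fun xs => by simp⟩
  | imp _ _ ih1 ih2 =>
    intro n enc henc
    obtain ⟨φ, hφ⟩ := ih1 n enc henc
    obtain ⟨ψ, hψ⟩ := ih2 n enc henc
    exact ⟨φ.imp ψ, fun xs => by simp [hφ, hψ]⟩
  | all _ ih =>
    intro n enc henc
    obtain ⟨φ, hφ⟩ := ih (n+1) (fun xs => push (xs (Fin.last n)) (enc (fun i => xs i.castSucc))) (by
      intro i
      cases i with
      | zero => exact Or.inr ⟨Fin.last n, fun xs => rfl⟩
      | succ i =>
        rcases henc i with ⟨c, hc⟩ | ⟨j, hj⟩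
        · exact Or.inl ⟨c, fun xs => hc _⟩
        · exact Or.inr ⟨j.castSucc, fun xs => hj _⟩)
    refine ⟨φ.all, fun xs => ?_⟩
    rw [FirstOrder.Language.BoundedFormula.realize_all]
    refine forall_congr' fun a => ?_
    rw [hφ]
    simp

theorem definable_of_formula {n : ℕ} (φ : LSet.BoundedFormula V n) :
    (Set.univ : Set V).Definable LSet {xs : Fin n → V | φ.Realize id xs} := by
  rw [Set.definable_iff_exists_formula_sum]
  refine ⟨φ.toFormula.relabel (Sum.map (fun v => ⟨v, trivial⟩) id), ?_⟩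
  ext xs
  simp only [Set.mem_ofPred_eq, FirstOrder.Language.Formula.realize_relabel]
  rw [FirstOrder.Language.BoundedFormula.realize_toFormula]
  rfl

theorem D.definable1 {P : V → Prop} (h : D (fun g => P (g 0))) :
    (Set.univ : Set V).Definable₁ LSet {x | P x} := by
  obtain ⟨φ, hφ⟩ := h.exists_formula 1 (fun xs _ => xs 0) (fun i => Or.inr ⟨0, fun _ => rfl⟩)
  have := definable_of_formula φ
  unfold Set.Definable₁
  convert this using 1
  ext xs
  simp [hφ]

theorem D.definable2 {R : V → V → Prop} (h : D (fun g => R (g 0) (g 1))) :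
    (Set.univ : Set V).Definable₂ LSet {p | R p.1 p.2} := by
  obtain ⟨φ, hφ⟩ := h.exists_formula 2 (fun xs => push (xs 0) (fun _ => xs 1)) (fun i => by
    cases i with
    | zero => exact Or.inr ⟨0, fun _ => rfl⟩
    | succ i => exact Or.inr ⟨1, fun _ => rfl⟩)
  have := definable_of_formula φ
  unfold Set.Definable₂
  convert this using 1
  ext xs
  simp [hφ]
  rfl

end

end Pool.Agent.ZFM
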