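import Pool.Agent.ZFM.Part

set_option autoImplicit false

universe u

namespace Pool.Agent.ZFM

variable {V : Type u} [FirstOrder.Language.Structure LSet V] [ModelZF V]

theorem nat_max {a b : V} (ha : a ∈ (om : V)) (hb : b ∈ (om : V)) :
    ∃ m, m ∈ (om : V) ∧ (a ∈ m ∨ a = m) ∧ (b ∈ m ∨ b = m) := by
  rcases nat_total ha hb with h | h | h
  · exact ⟨b, hb, Or.inl h, Or.inr rfl⟩
  · exact ⟨b, hb, Or.inr h, Or.inr rfl⟩
  · exact ⟨a, ha, Or.inr rfl, Or.inl h⟩

section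

variable {A BB f : V} (hA : ¬ Fin' A) (hB : ∀ P, P ∈ BB ↔ FP P A) (hf : Fn f BB A)
  (hff : ∀ z, Fin' (sep BB (fun P => app f P = z)))

include hff in
theorem mu_spec {s n k : V} (hk : k ∈ (om : V)) :
    mu BB f s n k ∈ (om : V) ∧ (k ∈ mu BB f s n k ∨ k = mu BB f s n k) ∧
      ¬ ∃ P, P ∈ BB ∧ app f P = app s n ∧
        ∀ m', m' ∈ (om : V) → (blk s n m' ∈ P ↔ m' = mu BB f s n k) := by
  -- the set of bad indices is finite
  have hbad : Fin' (sep om (fun m => ∃ P, P ∈ BB ∧ app f P = app s n ∧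
      ∀ m', m' ∈ (om : V) → (blk s n m' ∈ P ↔ m' = m))) := by
    have h1 : Fin' (rep (sep BB (fun P => app f P = app s n))
        (fun P => sU (sep om (fun m' => blk s n m' ∈ P)))) := fin_rep (hff _)
    apply fin_sub h1
    intro m hm
    rw [mem_sep] at hm
    obtain ⟨hmo, P, hP, hfP, hPm⟩ := hm
    rw [mem_rep]
    refine ⟨P, by rw [mem_sep]; exact ⟨hP, hfP⟩, ?_⟩
    have : sep om (fun m' => blk s n m' ∈ P) = sing m := by
      apply ext; intro z
      rw [mem_sep, mem_sing]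
      constructor
      · rintro ⟨hz, hzP⟩; exact (hPm z hz).1 hzP
      · rintro rfl; exact ⟨hmo, (hPm z hmo).2 rfl⟩
    rw [this]
    apply ext; intro z; simp
  obtain ⟨b, hb, hbs⟩ := fin_bdd hbad sep_sub
  have hne : ∃ m, m ∈ sep om (fun m => (k ∈ m ∨ k = m) ∧ ¬ ∃ P, P ∈ BB ∧ app f P = app s n ∧
      ∀ m', m' ∈ (om : V) → (blk s n m' ∈ P ↔ m' = m)) := by
    obtain ⟨m, hm, hkm, hbm⟩ := nat_max hk hb
    refine ⟨m, ?_⟩
    rw [mem_sep]
    refine ⟨hm, hkm, ?_⟩
    intro h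
    have h2 : m ∈ b := by
      apply hbs
      rw [mem_sep]
      exact ⟨hm, h⟩
    rcases hbm with h3 | h3
    · exact nat_asymm hb h2 h3
    · rw [h3] at h2
      exact nat_irrefl hm h2
  have h3 := (mn_spec sep_sub hne).1
  rw [mem_sep] at h3
  unfold mu
  exact h3

theorem blk_ne {s n m : V} (hs : InjOn s om) (hn : n ∈ (om : V)) (hm : m ∈ (om : V)) :
    app s (pr (pr n m) emp) ≠ app s (pr (pr n m) (suc emp)) := by
  intro h
  have h1 := pr_mem hn hm
  have h0 : (emp : V) ∈ (om : V) := emp_mem_om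
  have h2 := hs _ (pr_mem h1 h0) _ (pr_mem h1 (suc_mem_om h0)) h
  have h3 := pr_inj _ h1 _ h1 _ h0 _ (suc_mem_om h0) h2
  exact suc_ne_emp _ h3.2.symm

theorem blk_inj {W s s' n n' m m' x : V} (hW : Good A W) (hs : s ∈ W) (hs' : s' ∈ W)
    (hn : n ∈ (om : V)) (hm : m ∈ (om : V)) (hn' : n' ∈ (om : V)) (hm' : m' ∈ (om : V))
    (hx : x ∈ blk s n m) (hx' : x ∈ blk s' n' m') : s = s' ∧ n = n' ∧ m = m' := by
  have h0 : (emp : V) ∈ (om : V) := emp_mem_om
  have h1 : suc (emp : V) ∈ (om : V) := suc_mem_om h0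
  have key : ∀ i, i ∈ (om : V) → ∀ j, j ∈ (om : V) → app s (pr (pr n m) i) = app s' (pr (pr n' m') j) →
      s = s' ∧ n = n' ∧ m = m' := by
    intro i hi j hj h
    have hss := hW.2 s hs s' hs' _ (pr_mem (pr_mem hn hm) hi) _ (pr_mem (pr_mem hn' hm') hj) h
    subst hss
    have h2 := (hW.1 s hs).2 _ (pr_mem (pr_mem hn hm) hi) _ (pr_mem (pr_mem hn' hm') hj) h
    have h3 := pr_inj _ (pr_mem hn hm) _ (pr_mem hn' hm') _ hi _ hj h2
    have h4 := pr_inj _ hn _ hn' _ hm _ hm' h3.1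
    exact ⟨rfl, h4⟩
  unfold blk at hx hx'
  rw [mem_upair] at hx hx'
  rcases hx with hx | hx <;> rcases hx' with hx' | hx'
  · exact key _ h0 _ h0 (hx.symm.trans hx')
  · exact key _ h0 _ h1 (hx.symm.trans hx')
  · exact key _ h1 _ h0 (hx.symm.trans hx')
  · exact key _ h1 _ h1 (hx.symm.trans hx')

theorem mem_blks {W k B : V} : B ∈ blks BB f W k ↔ ∃ s, s ∈ W ∧ ∃ n, n ∈ (om : V) ∧
    B = blk s n (mu BB f s n k) := by
  have hmu : ∀ (s t : (ℕ → V) → V) [DF s] [DF t], DF (fun g => mu BB f (s g) (t g) k) := by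
    intro s t hs ht
    refine DF.plug2 (F := fun x y => mu BB f x y k) ?_ hs ht
    unfold mu; infer_instance
  unfold blks
  rw [mem_sU]
  constructor
  · rintro ⟨w, hw, hB⟩
    rw [mem_rep] at hw
    obtain ⟨s, hs, rfl⟩ := hw
    rw [mem_rep] at hB
    obtain ⟨n, hn, rfl⟩ := hB
    exact ⟨s, hs, n, hn, rfl⟩
  · rintro ⟨s, hs, n, hn, rfl⟩
    refine ⟨rep om (fun n => blk s n (mu BB f s n k)), ?_, ?_⟩
    · rw [mem_rep]; exact ⟨s, hs, rfl⟩
    · rw [mem_rep]; exact ⟨n, hn, rfl⟩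

include hff in
theorem blks_PD {W k : V} (hW : Good A W) (hk : k ∈ (om : V)) : PD (blks BB f W k) A := by
  have h0 : (emp : V) ∈ (om : V) := emp_mem_om
  have h1 : suc (emp : V) ∈ (om : V) := suc_mem_om h0
  constructor
  · intro B hB
    rw [mem_blks] at hB
    obtain ⟨s, hs, n, hn, rfl⟩ := hB
    have hm := (mu_spec (BB := BB) (f := f) (s := s) (n := n) hff hk).1
    refine ⟨⟨app s (pr (pr n (mu BB f s n k)) emp), by unfold blk; simp⟩, ?_, ?_⟩
    · intro x hx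
      unfold blk at hx
      rw [mem_upair] at hx
      have := (hW.1 s hs).1
      rcases hx with rfl | rfl
      · exact this.app_mem (pr_mem (pr_mem hn hm) h0)
      · exact this.app_mem (pr_mem (pr_mem hn hm) h1)
    · unfold blk; exact fin_upair _ _
  · intro B C x hB hC hxB hxC
    rw [mem_blks] at hB hC
    obtain ⟨s, hs, n, hn, rfl⟩ := hB
    obtain ⟨s', hs', n', hn', rfl⟩ := hC
    have hm := (mu_spec (BB := BB) (f := f) (s := s) (n := n) hff hk).1
    have hm' := (mu_spec (BB := BB) (f := f) (s := s') (n := n') hff hk).1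
    obtain ⟨rfl, rfl, _⟩ := blk_inj hW hs hs' hn hm hn' hm' hxB hxC
    rfl

include hff in
theorem blk_mem_cpl {W k s n m : V} (hW : Good A W) (hk : k ∈ (om : V)) (hs : s ∈ W)
    (hn : n ∈ (om : V)) (hm : m ∈ (om : V)) :
    blk s n m ∈ cpl (blks BB f W k) A ↔ m = mu BB f s n k := by
  constructor
  · intro h
    have hne := blk_ne (hW.1 s hs).2 hn hm
    have h1 := mem_of_cpl h (x := app s (pr (pr n m) emp)) (y := app s (pr (pr n m) (suc emp)))
      (by unfold blk; simp) (by unfold blk; simp) hne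
    rw [mem_blks] at h1
    obtain ⟨s', hs', n', hn', he⟩ := h1
    have hm' := (mu_spec (BB := BB) (f := f) (s := s') (n := n') hff hk).1
    have hx : app s (pr (pr n m) emp) ∈ blk s n m := by unfold blk; simp
    have hx' : app s (pr (pr n m) emp) ∈ blk s' n' (mu BB f s' n' k) := by rw [← he]; exact hx
    obtain ⟨rfl, rfl, h⟩ := blk_inj hW hs hs' hn hm hn' hm' hx hx'
    exact h
  · rintro rfl
    rw [mem_cpl]
    left
    rw [mem_blks]
    exact ⟨s, hs, n, hn, rfl⟩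

include hB hff in
theorem app_cpl_ne {W k s n : V} (hW : Good A W) (hk : k ∈ (om : V)) (hs : s ∈ W)
    (hn : n ∈ (om : V)) : app f (cpl (blks BB f W k) A) ≠ app s n := by
  intro h
  refine (mu_spec (BB := BB) (f := f) (s := s) (n := n) hff hk).2.2 ?_
  refine ⟨cpl (blks BB f W k) A, (hB _).2 (cpl_FP (blks_PD hff hW hk)), h, ?_⟩
  intro m' hm'
  exact blk_mem_cpl hff hW hk hs hn hm'

end

end Pool.Agent.ZFM
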