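import Pool.Agent.ZFM.Rec

set_option autoImplicit false

universe u

namespace Pool.Agent.ZFM

variable {V : Type u} [FirstOrder.Language.Structure LSet V] [ModelZF V]

/-- Bijections. -/
def Bij (f a b : V) : Prop := Fn f a b ∧ ∀ y, y ∈ b → ∃! x, opair x y ∈ f

theorem isBijection_iff {f a b : V} : IsBijection f a b ↔ Bij f a b := by
  unfold IsBijection Bij
  simp only [pairIn_iff, isFunction_iff]
  rfl

instance D.instBij {s t r : (ℕ → V) → V} [hs : DF s] [ht : DF t] [hr : DF r] :
    D (fun g => Bij (s g) (t g) (r g)) := by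
  refine D.plug3 (P := fun x y z => Bij x y z) ?_ hs ht hr
  unfold Bij
  infer_instance

/-- Finite sets of the model. -/
def Fin' (x : V) : Prop := ∃ n f, n ∈ (om : V) ∧ Bij f n x

theorem isFinite_iff {x : V} : IsFinite x ↔ Fin' x := by
  unfold IsFinite Fin'
  simp only [isNatural_iff, isBijection_iff]

instance D.instFin {s : (ℕ → V) → V} [hs : DF s] : D (fun g => Fin' (s g)) := by
  refine D.plug1 (P := fun x => Fin' x) ?_ hs
  unfold Fin'
  infer_instance

theorem Bij.mk' {f a b : V} (hf : Fn f a b) (hi : InjOn f a)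
    (hs : ∀ y, y ∈ b → ∃ x, x ∈ a ∧ app f x = y) : Bij f a b := by
  refine ⟨hf, fun y hy => ?_⟩
  obtain ⟨x, hx, he⟩ := hs y hy
  refine ⟨x, hf.mem_iff.2 ⟨hx, he⟩, ?_⟩
  intro x' hx'
  obtain ⟨h1, h2⟩ := hf.mem_iff.1 hx'
  exact hi _ h1 _ hx (h2.trans he.symm)

theorem Bij.inj {f a b : V} (h : Bij f a b) : InjOn f a := by
  intro x hx y hy hxy
  obtain ⟨z, _, hu⟩ := h.2 (app f x) (h.1.app_mem hx)
  rw [hu x (h.1.mem_iff.2 ⟨hx, rfl⟩), hu y (h.1.mem_iff.2 ⟨hy, hxy.symm⟩)]

theorem Bij.surj {f a b : V} (h : Bij f a b) {y : V} (hy : y ∈ b) : ∃ x, x ∈ a ∧ app f x = y := by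
  obtain ⟨x, hx, _⟩ := h.2 y hy
  exact ⟨x, h.1.mem_iff.1 hx⟩

theorem fin_emp : Fin' (emp : V) := by
  refine ⟨emp, emp, emp_mem_om, ⟨⟨by simp, by simp⟩, by simp⟩⟩

/-- Lambda with bijection target `rep`. -/
theorem bij_lam {a : V} {F : V → V} [hF : DF (fun g => F (g 0))]
    (hi : ∀ x, x ∈ a → ∀ y, y ∈ a → F x = F y → x = y) : Bij (lam a F) a (rep a F) := by
  refine Bij.mk' (lam_fn fun x hx => by rw [mem_rep]; exact ⟨x, hx, rfl⟩) ?_ ?_
  · intro x hx y hy h
    rw [app_lam hx, app_lam hy] at h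
    exact hi x hx y hy h
  · intro y hy
    rw [mem_rep] at hy
    obtain ⟨x, hx, rfl⟩ := hy
    exact ⟨x, hx, app_lam hx⟩

theorem bij_trans {f g a b c : V} (hf : Bij f a b) (hg : Bij g b c) :
    Bij (lam a (fun x => app g (app f x))) a c := by
  refine Bij.mk' (lam_fn fun x hx => hg.1.app_mem (hf.1.app_mem hx)) ?_ ?_
  · intro x hx y hy h
    rw [app_lam hx, app_lam hy] at h
    exact hf.inj x hx y hy (hg.inj _ (hf.1.app_mem hx) _ (hf.1.app_mem hy) h)
  · intro y hy
    obtain ⟨z, hz, rfl⟩ := hg.surj hy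
    obtain ⟨x, hx, rfl⟩ := hf.surj hz
    exact ⟨x, hx, app_lam hx⟩

/-- Extending a bijection by one point. -/
theorem bij_extend {f n x a : V} (hn : n ∈ (om : V)) (hf : Bij f n x) (ha : ¬ a ∈ x) :
    Bij (un f (sing (opair n a))) (suc n) (un x (sing a)) := by
  have hnn := nat_irrefl hn
  have hm : ∀ u v, opair u v ∈ un f (sing (opair n a)) ↔ (u ∈ n ∧ app f u = v) ∨ (u = n ∧ v = a) := by
    intro u v
    rw [mem_un, mem_sing, hf.1.mem_iff, opair_inj]
  refine ⟨⟨?_, ?_⟩, ?_⟩
  · intro p hp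
    rw [mem_un, mem_sing] at hp
    rcases hp with hp | rfl
    · obtain ⟨u, v, hu, hv, rfl⟩ := hf.1.1 p hp
      exact ⟨u, v, by simp [hu], by simp [hv], rfl⟩
    · exact ⟨n, a, by simp, by simp, rfl⟩
  · intro u hu
    rw [mem_suc] at hu
    rcases hu with hu | rfl
    · refine ⟨app f u, (hm _ _).2 (Or.inl ⟨hu, rfl⟩), ?_⟩
      intro v hv
      rcases (hm _ _).1 hv with h | h
      · exact h.2.symm
      · exact absurd (h.1 ▸ hu) hnn
    · refine ⟨a, (hm _ _).2 (Or.inr ⟨rfl, rfl⟩), ?_⟩
      intro v hv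
      rcases (hm _ _).1 hv with h | h
      · exact absurd h.1 hnn
      · exact h.2
  · intro v hv
    rw [mem_un, mem_sing] at hv
    rcases hv with hv | rfl
    · obtain ⟨u, hu, rfl⟩ := hf.surj hv
      refine ⟨u, (hm _ _).2 (Or.inl ⟨hu, rfl⟩), ?_⟩
      intro u' hu'
      rcases (hm _ _).1 hu' with h | h
      · exact hf.inj _ h.1 _ hu h.2
      · exact absurd (h.2 ▸ hv) ha
    · refine ⟨n, (hm _ _).2 (Or.inr ⟨rfl, rfl⟩), ?_⟩
      intro u' hu'
      rcases (hm _ _).1 hu' with h | h
      · exact absurd (h.2 ▸ hf.1.app_mem h.1) ha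
      · exact h.1

theorem un_sing_of_mem {x a : V} (h : a ∈ x) : un x (sing a) = x := by
  apply ext; intro z; rw [mem_un, mem_sing]
  constructor
  · rintro (h' | rfl)
    · exact h'
    · exact h
  · exact Or.inl

theorem fin_ins {x : V} (hx : Fin' x) (a : V) : Fin' (un x (sing a)) := by
  by_cases ha : a ∈ x
  · rw [un_sing_of_mem ha]; exact hx
  · obtain ⟨n, f, hn, hf⟩ := hx
    exact ⟨_, _, suc_mem_om hn, bij_extend hn hf ha⟩

/-- removing the last point of a bijection -/
theorem bij_restrict {f n x : V} (hn : n ∈ (om : V)) (hf : Bij f (suc n) x) :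
    Bij (lam n (fun u => app f u)) n (sdf x (sing (app f n))) := by
  have hnn := nat_irrefl hn
  have hns : n ∈ suc n := by simp
  have hs : ∀ u, u ∈ n → u ∈ suc n := fun u hu => by simp [hu]
  refine Bij.mk' (lam_fn fun u hu => ?_) ?_ ?_
  · rw [mem_sdf, mem_sing]
    refine ⟨hf.1.app_mem (hs u hu), ?_⟩
    intro h
    have := hf.inj _ (hs u hu) _ hns h
    subst this
    exact hnn hu
  · intro u hu v hv h
    rw [app_lam hu, app_lam hv] at h
    exact hf.inj _ (hs u hu) _ (hs v hv) h
  · intro v hv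
    rw [mem_sdf, mem_sing] at hv
    obtain ⟨u, hu, rfl⟩ := hf.surj hv.1
    rw [mem_suc] at hu
    rcases hu with hu | rfl
    · exact ⟨u, hu, app_lam hu⟩
    · exact absurd rfl hv.2

theorem bij_emp {f x : V} (hf : Bij f emp x) : x = emp := by
  rw [eq_emp_iff]
  intro z hz
  obtain ⟨u, hu, _⟩ := hf.surj hz
  simp at hu

theorem sdf_un_sing {x a : V} (h : a ∈ x) : un (sdf x (sing a)) (sing a) = x := by
  apply ext; intro z
  rw [mem_un, mem_sdf, mem_sing]
  constructor
  · rintro (h' | rfl)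
    · exact h'.1
    · exact h
  · intro hz
    by_cases hza : z = a
    · exact Or.inr hza
    · exact Or.inl ⟨hz, hza⟩

/-- Induction on finite sets. -/
theorem fin_ind {P : V → Prop} [hP : D (fun g => P (g 0))] (h0 : P emp)
    (hs : ∀ x a, Fin' x → P x → ¬ a ∈ x → P (un x (sing a))) {x : V} (hx : Fin' x) : P x := by
  have hP' : ∀ (s : (ℕ → V) → V) [DF s], D (fun g => P (s g)) := fun s hs => D.plug1 hP hs
  have key : ∀ n, n ∈ (om : V) → ∀ f x, Bij f n x → P x := by
    refine om_ind (P := fun n => ∀ f x, Bij f n x → P x) ?_ ?_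
    · intro f x hf
      rw [bij_emp hf]
      exact h0
    · intro n hn ih f x hf
      have hb := bij_restrict hn hf
      have hm : app f n ∈ x := hf.1.app_mem (by simp)
      have h1 := ih _ _ hb
      have h2 := hs _ (app f n) ⟨n, _, hn, hb⟩ h1 (by simp)
      rw [sdf_un_sing hm] at h2
      exact h2
  obtain ⟨n, f, hn, hf⟩ := hx
  exact key n hn f x hf

theorem fin_sub {x : V} (hx : Fin' x) : ∀ y, sub y x → Fin' y := by
  refine fin_ind (P := fun x => ∀ y, sub y x → Fin' y) ?_ ?_ hx
  · intro y hy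
    have : y = emp := by
      rw [eq_emp_iff]; intro z hz; exact not_mem_emp z (hy z hz)
    rw [this]; exact fin_emp
  · intro x a hx ih ha y hy
    by_cases hay : a ∈ y
    · have h1 : sub (sdf y (sing a)) x := by
        intro z hz
        rw [mem_sdf, mem_sing] at hz
        have := hy z hz.1
        rw [mem_un, mem_sing] at this
        rcases this with h | h
        · exact h
        · exact absurd h hz.2
      have := fin_ins (ih _ h1) a
      rw [sdf_un_sing hay] at this
      exact this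
    · apply ih
      intro z hz
      have := hy z hz
      rw [mem_un, mem_sing] at this
      rcases this with h | h
      · exact h
      · exact absurd (h ▸ hz) hay

theorem fin_un {x y : V} (hx : Fin' x) (hy : Fin' y) : Fin' (un x y) := by
  refine fin_ind (P := fun y => Fin' (un x y)) ?_ ?_ hy
  · have : un x emp = x := by apply ext; intro z; simp
    rw [this]; exact hx
  · intro y a _ ih _
    have : un x (un y (sing a)) = un (un x y) (sing a) := by
      apply ext; intro z; simp only [mem_un]; tauto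
    rw [this]; exact fin_ins ih a

theorem fin_sing (a : V) : Fin' (sing a) := by
  have := fin_ins (fin_emp (V := V)) a
  have h : un emp (sing a) = sing a := by apply ext; intro z; simp
  rw [h] at this; exact this

theorem fin_upair (a b : V) : Fin' (upair a b) := by
  have := fin_ins (fin_sing a) b
  have h : un (sing a) (sing b) = upair a b := by apply ext; intro z; simp
  rw [h] at this; exact this

theorem fin_rep {x : V} {F : V → V} [hF : DF (fun g => F (g 0))] (hx : Fin' x) :
    Fin' (rep x F) := by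
  have hF' : ∀ (s : (ℕ → V) → V) [DF s], DF (fun g => F (s g)) := fun s hs => DF.plug1 hF hs
  refine fin_ind (P := fun x => Fin' (rep x F)) ?_ ?_ hx
  · have : rep emp F = emp := by
      rw [eq_emp_iff]; intro z hz; rw [mem_rep] at hz
      obtain ⟨y, hy, _⟩ := hz
      simp at hy
    rw [this]; exact fin_emp
  · intro x a _ ih _
    have : rep (un x (sing a)) F = un (rep x F) (sing (F a)) := by
      apply ext; intro z
      rw [mem_rep, mem_un, mem_sing, mem_rep]
      simp only [mem_un, mem_sing]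
      constructor
      · rintro ⟨y, hy | rfl, rfl⟩
        · exact Or.inl ⟨y, hy, rfl⟩
        · exact Or.inr rfl
      · rintro (⟨y, hy, rfl⟩ | rfl)
        · exact ⟨y, Or.inl hy, rfl⟩
        · exact ⟨a, Or.inr rfl, rfl⟩
    rw [this]; exact fin_ins ih _

theorem fin_sU {x : V} (hx : Fin' x) : (∀ y, y ∈ x → Fin' y) → Fin' (sU x) := by
  refine fin_ind (P := fun x => (∀ y, y ∈ x → Fin' y) → Fin' (sU x)) ?_ ?_ hx
  · intro _
    have : sU (emp : V) = emp := by
      rw [eq_emp_iff]; intro z hz; simp at hz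
    rw [this]; exact fin_emp
  · intro x a _ ih _ h
    have : sU (un x (sing a)) = un (sU x) a := by
      apply ext; intro z
      simp only [mem_sU, mem_un, mem_sing]
      constructor
      · rintro ⟨w, hw | rfl, hz⟩
        · exact Or.inl ⟨w, hw, hz⟩
        · exact Or.inr hz
      · rintro (⟨w, hw, hz⟩ | hz)
        · exact ⟨w, Or.inl hw, hz⟩
        · exact ⟨a, Or.inr rfl, hz⟩
    rw [this]
    exact fin_un (ih fun y hy => h y (by simp [hy])) (h a (by simp))

theorem fin_nat {n : V} (hn : n ∈ (om : V)) : Fin' n := by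
  refine om_ind (P := fun n => Fin' n) fin_emp ?_ n hn
  intro n _ ih
  exact fin_ins ih n

/-- A finite set of natural numbers is bounded. -/
theorem fin_bdd {x : V} (hx : Fin' x) : sub x om → ∃ n, n ∈ (om : V) ∧ sub x n := by
  refine fin_ind (P := fun x => sub x om → ∃ n, n ∈ (om : V) ∧ sub x n) ?_ ?_ hx
  · intro _
    exact ⟨emp, emp_mem_om, sub_refl _⟩
  · intro x a _ ih _ h
    obtain ⟨n, hn, hxn⟩ := ih (fun z hz => h z (by simp [hz]))
    have ha : a ∈ (om : V) := h a (by simp)
    rcases nat_total hn ha with h1 | h1 | h1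
    · refine ⟨suc a, suc_mem_om ha, ?_⟩
      intro z hz
      rw [mem_un, mem_sing] at hz
      rcases hz with hz | rfl
      · rw [mem_suc]; exact Or.inl (nat_trans ha (hxn z hz) h1)
      · simp
    · refine ⟨suc a, suc_mem_om ha, ?_⟩
      intro z hz
      rw [mem_un, mem_sing] at hz
      rcases hz with hz | rfl
      · rw [mem_suc]; rw [h1] at hxn; exact Or.inl (hxn z hz)
      · simp
    · refine ⟨n, hn, ?_⟩
      intro z hz
      rw [mem_un, mem_sing] at hz
      rcases hz with hz | rfl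
      · exact hxn z hz
      · exact h1

/-- a set of naturals is finite iff bounded -/
theorem fin_iff_bdd {x : V} (hx : sub x om) : Fin' x ↔ ∃ n, n ∈ (om : V) ∧ sub x n :=
  ⟨fun h => fin_bdd h hx, fun ⟨_, hn, h⟩ => fin_sub (fin_nat hn) _ h⟩

theorem unbdd_of_not_fin {x : V} (hx : sub x om) (h : ¬ Fin' x) {n : V} (hn : n ∈ (om : V)) :
    ∃ m, m ∈ x ∧ n ∈ m := by
  by_contra hcon
  push Not at hcon
  apply h
  rw [fin_iff_bdd hx]
  refine ⟨suc n, suc_mem_om hn, fun z hz => ?_⟩
  rw [mem_suc]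
  rcases nat_total (hx z hz) hn with h1 | h1 | h1
  · exact Or.inl h1
  · exact Or.inr h1
  · exact absurd h1 (hcon z hz)

theorem not_fin_om : ¬ Fin' (om : V) := by
  intro h
  obtain ⟨n, hn, hs⟩ := fin_bdd h (sub_refl _)
  exact nat_irrefl hn (hs n hn)

end Pool.Agent.ZFM
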