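import Pool.Agent.ZFM.Sets

set_option autoImplicit false

universe u

namespace Pool.Agent.ZFM

variable {V : Type u} [FirstOrder.Language.Structure LSet V] [ModelZF V]

attribute [simp] mem_sep mem_rep

theorem exists_emp : ∃ e : V, ∀ z : V, ¬ z ∈ e := by
  obtain ⟨x, ⟨e, _, he⟩, _⟩ := ModelZF.infinity (M := V)
  exact ⟨e, he⟩

/-- The empty set. -/
noncomputable def emp : V := Classical.choose exists_emp

@[simp] theorem not_mem_emp (z : V) : ¬ z ∈ (emp : V) := Classical.choose_spec exists_emp z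

theorem eq_emp_iff {x : V} : x = emp ↔ ∀ z, ¬ z ∈ x := by
  rw [eq_iff_mem]; simp

theorem ne_emp_iff {x : V} : x ≠ emp ↔ ∃ z, z ∈ x := by
  rw [Ne, eq_emp_iff]; push Not; rfl

/-- Singleton. -/
noncomputable def sing (x : V) : V := upair x x

@[simp] theorem mem_sing {x z : V} : z ∈ sing x ↔ z = x := by simp [sing]

instance DF.instSing {s : (ℕ → V) → V} [hs : DF s] : DF (fun g => sing (s g)) := by
  unfold sing; infer_instance

/-- Binary union. -/
noncomputable def un (x y : V) : V := sU (upair x y)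

@[simp] theorem mem_un {x y z : V} : z ∈ un x y ↔ z ∈ x ∨ z ∈ y := by
  simp only [un, mem_sU, mem_upair]
  constructor
  · rintro ⟨w, rfl | rfl, h⟩ <;> tauto
  · rintro (h | h)
    · exact ⟨x, Or.inl rfl, h⟩
    · exact ⟨y, Or.inr rfl, h⟩

instance DF.instUn {s t : (ℕ → V) → V} [hs : DF s] [ht : DF t] : DF (fun g => un (s g) (t g)) := by
  unfold un; infer_instance

/-- Difference. -/
noncomputable def sdf (x y : V) : V := sep x (fun z => ¬ z ∈ y)

@[simp] theorem mem_sdf {x y z : V} : z ∈ sdf x y ↔ z ∈ x ∧ ¬ z ∈ y := by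
  simp [sdf]

instance DF.instSdf {s t : (ℕ → V) → V} [hs : DF s] [ht : DF t] :
    DF (fun g => sdf (s g) (t g)) := by
  refine DF.plug2 (F := fun x y => sdf x y) ?_ hs ht
  unfold sdf; infer_instance

/-- Intersection. -/
noncomputable def inr (x y : V) : V := sep x (fun z => z ∈ y)

@[simp] theorem mem_inr {x y z : V} : z ∈ inr x y ↔ z ∈ x ∧ z ∈ y := by
  simp [inr]

instance DF.instInr {s t : (ℕ → V) → V} [hs : DF s] [ht : DF t] :
    DF (fun g => inr (s g) (t g)) := by
  refine DF.plug2 (F := fun x y => inr x y) ?_ hs ht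
  unfold inr; infer_instance

/-- Inclusion. -/
def sub (x y : V) : Prop := ∀ z, z ∈ x → z ∈ y

instance D.instSub {s t : (ℕ → V) → V} [hs : DF s] [ht : DF t] : D (fun g => sub (s g) (t g)) := by
  refine D.plug2 (P := fun x y => sub x y) ?_ hs ht
  unfold sub; infer_instance

theorem sub_refl (x : V) : sub x x := fun _ h => h
theorem sub_trans {x y z : V} (h : sub x y) (h' : sub y z) : sub x z := fun _ hw => h' _ (h _ hw)
theorem sub_antisymm {x y : V} (h : sub x y) (h' : sub y x) : x = y :=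
  ext fun z => ⟨h z, h' z⟩

theorem mem_pow' {x z : V} : z ∈ pow x ↔ sub z x := mem_pow

theorem sep_sub {a : V} {P : V → Prop} [hP : D (fun g => P (g 0))] : sub (sep a P) a := by
  intro z hz
  rw [mem_sep] at hz
  exact hz.1

/-! ordered pairs -/

/-- Kuratowski pair. -/
noncomputable def opair (x y : V) : V := upair (sing x) (upair x y)

instance DF.instOpair {s t : (ℕ → V) → V} [hs : DF s] [ht : DF t] :
    DF (fun g => opair (s g) (t g)) := by
  unfold opair; infer_instance

theorem isOPair_iff {p x y : V} : IsOPair p x y ↔ p = opair x y := by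
  have h1 : ∀ w : V, (∀ v, Mem v w ↔ v = x) ↔ w = sing x := by
    intro w
    rw [eq_iff_mem]
    simp only [mem_sing]
    rfl
  have h2 : ∀ w : V, (∀ v, Mem v w ↔ (v = x ∨ v = y)) ↔ w = upair x y := by
    intro w
    rw [eq_iff_mem]
    simp only [mem_upair]
    rfl
  unfold IsOPair
  rw [eq_iff_mem]
  simp only [h1, h2, opair, mem_upair]
  rfl

theorem upair_eq_sing {x y z : V} (h : upair x y = sing z) : x = z ∧ y = z := by
  have hx : x ∈ sing z := by rw [← h]; simp
  have hy : y ∈ sing z := by rw [← h]; simp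
  simp at hx hy
  exact ⟨hx, hy⟩

theorem opair_inj {x y x' y' : V} : opair x y = opair x' y' ↔ x = x' ∧ y = y' := by
  constructor
  · intro h
    have h1 : sing x ∈ opair x' y' := by rw [← h]; simp [opair]
    have hx : x = x' := by
      simp only [opair, mem_upair] at h1
      rcases h1 with h1 | h1
      · exact (upair_eq_sing h1).1
      · exact (upair_eq_sing h1.symm).1.symm
    subst hx
    refine ⟨rfl, ?_⟩
    have h2 : upair x y ∈ opair x y' := by rw [← h]; simp [opair]
    have h3 : upair x y' ∈ opair x y := by rw [h]; simp [opair]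
    simp only [opair, mem_upair] at h2 h3
    rcases h2 with h2 | h2
    · have := (upair_eq_sing h2).2
      subst this
      rcases h3 with h3 | h3
      · exact ((upair_eq_sing h3).2).symm
      · exact ((upair_eq_sing h3).2).symm
    · have hy : y ∈ upair x y' := by rw [← h2]; simp
      simp at hy
      rcases hy with hy | hy
      · subst hy
        have := upair_eq_sing (h2.symm : upair y y' = sing y)
        exact this.2.symm
      · exact hy
  · rintro ⟨rfl, rfl⟩; rfl

theorem pairIn_iff {f x y : V} : PairIn f x y ↔ opair x y ∈ f := by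
  unfold PairIn
  constructor
  · rintro ⟨p, hp, h⟩
    rw [isOPair_iff] at h
    subst h
    exact hp
  · intro h
    exact ⟨_, h, isOPair_iff.2 rfl⟩

/-- Product. -/
noncomputable def prod (a b : V) : V := sU (rep a (fun x => rep b (fun y => opair x y)))

instance DF.instProd {s t : (ℕ → V) → V} [hs : DF s] [ht : DF t] :
    DF (fun g => prod (s g) (t g)) := by
  refine DF.plug2 (F := fun x y => prod x y) ?_ hs ht
  unfold prod; infer_instance

theorem mem_prod {a b p : V} : p ∈ prod a b ↔ ∃ x y, x ∈ a ∧ y ∈ b ∧ p = opair x y := by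
  simp only [prod, mem_sU, mem_rep]
  constructor
  · rintro ⟨w, ⟨x, hx, rfl⟩, h⟩
    rw [mem_rep] at h
    obtain ⟨y, hy, rfl⟩ := h
    exact ⟨x, y, hx, hy, rfl⟩
  · rintro ⟨x, y, hx, hy, rfl⟩
    refine ⟨_, ⟨x, hx, rfl⟩, ?_⟩
    rw [mem_rep]
    exact ⟨y, hy, rfl⟩

@[simp] theorem opair_mem_prod {a b x y : V} : opair x y ∈ prod a b ↔ x ∈ a ∧ y ∈ b := by
  rw [mem_prod]
  constructor
  · rintro ⟨x', y', hx, hy, h⟩
    rw [opair_inj] at h
    obtain ⟨rfl, rfl⟩ := h
    exact ⟨hx, hy⟩
  · rintro ⟨hx, hy⟩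
    exact ⟨x, y, hx, hy, rfl⟩

/-! functions -/

/-- `f` is a function from `a` to `b`. -/
def Fn (f a b : V) : Prop :=
  (∀ p, p ∈ f → ∃ x y, x ∈ a ∧ y ∈ b ∧ p = opair x y) ∧ ∀ x, x ∈ a → ∃! y, opair x y ∈ f

theorem isFunction_iff {f a b : V} : IsFunction f a b ↔ Fn f a b := by
  unfold IsFunction Fn
  simp only [pairIn_iff, isOPair_iff]
  rfl

instance D.instFn {s t r : (ℕ → V) → V} [hs : DF s] [ht : DF t] [hr : DF r] :
    D (fun g => Fn (s g) (t g) (r g)) := by
  refine D.plug3 (P := fun x y z => Fn x y z) ?_ hs ht hr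
  unfold Fn
  infer_instance

/-- Application. -/
noncomputable def app (f x : V) : V := sU (sep (sU (sU f)) (fun y => opair x y ∈ f))

instance DF.instApp {s t : (ℕ → V) → V} [hs : DF s] [ht : DF t] :
    DF (fun g => app (s g) (t g)) := by
  refine DF.plug2 (F := fun x y => app x y) ?_ hs ht
  unfold app; infer_instance

theorem app_eq {f x y : V} (h : opair x y ∈ f) (hu : ∀ y', opair x y' ∈ f → y' = y) :
    app f x = y := by
  have h1 : sep (sU (sU f)) (fun y => opair x y ∈ f) = sing y := by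
    apply ext
    intro z
    rw [mem_sep, mem_sing]
    constructor
    · rintro ⟨_, h'⟩; exact hu _ h'
    · rintro rfl
      refine ⟨?_, h⟩
      rw [mem_sU]
      refine ⟨upair x z, ?_, by simp⟩
      rw [mem_sU]
      exact ⟨_, h, by simp [opair]⟩
  unfold app
  rw [h1]
  apply ext
  intro z
  simp

theorem Fn.opair_mem_iff {f a b : V} (h : Fn f a b) {x y : V} (hx : x ∈ a) :
    opair x y ∈ f ↔ app f x = y := by
  obtain ⟨y', hy', hu⟩ := h.2 x hx
  have := app_eq hy' (fun y'' h'' => hu _ h'')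
  rw [this]
  constructor
  · intro h; exact (hu _ h).symm
  · rintro rfl; exact hy'

theorem Fn.app_mem {f a b : V} (h : Fn f a b) {x : V} (hx : x ∈ a) : app f x ∈ b := by
  obtain ⟨y', hy', hu⟩ := h.2 x hx
  have := app_eq hy' (fun y'' h'' => hu _ h'')
  rw [this]
  obtain ⟨x1, y1, _, hy1, he⟩ := h.1 _ hy'
  rw [opair_inj] at he
  rw [he.2]; exact hy1

theorem Fn.mem_iff {f a b : V} (h : Fn f a b) {x y : V} :
    opair x y ∈ f ↔ x ∈ a ∧ app f x = y := by
  constructor
  · intro hp
    obtain ⟨x1, y1, hx1, hy1, he⟩ := h.1 _ hp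
    rw [opair_inj] at he
    obtain ⟨rfl, rfl⟩ := he
    exact ⟨hx1, (h.opair_mem_iff hx1).1 hp⟩
  · rintro ⟨hx, he⟩
    exact (h.opair_mem_iff hx).2 he

theorem Fn.ext {f g a b c : V} (hf : Fn f a b) (hg : Fn g a c) (h : ∀ x, x ∈ a → app f x = app g x) :
    f = g := by
  apply Pool.Agent.ZFM.ext
  intro p
  constructor
  · intro hp
    obtain ⟨x, y, hx, _, rfl⟩ := hf.1 _ hp
    rw [hf.mem_iff] at hp
    rw [hg.mem_iff, ← h x hx]
    exact hp
  · intro hp
    obtain ⟨x, y, hx, _, rfl⟩ := hg.1 _ hp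
    rw [hg.mem_iff] at hp
    rw [hf.mem_iff, h x hx]
    exact hp

theorem Fn.sub_prod {f a b : V} (h : Fn f a b) : sub f (prod a b) := by
  intro p hp
  rw [mem_prod]
  exact h.1 p hp

/-- Lambda abstraction. -/
noncomputable def lam (a : V) (F : V → V) : V := rep a (fun x => opair x (F x))

instance DF.instLam {s : (ℕ → V) → V} {F : (ℕ → V) → V → V} [hs : DF s]
    [hF : DF (fun g => F (tl g) (g 0))] : DF (fun g => lam (s g) (F g)) := by
  unfold lam
  exact DF.instRep (hF := DF.instOpair)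

theorem mem_lam {a : V} {F : V → V} [hF : DF (fun g => F (g 0))] {p : V} :
    p ∈ lam a F ↔ ∃ x, x ∈ a ∧ p = opair x (F x) := by
  unfold lam
  rw [mem_rep]

theorem opair_mem_lam {a : V} {F : V → V} [hF : DF (fun g => F (g 0))] {x y : V} :
    opair x y ∈ lam a F ↔ x ∈ a ∧ y = F x := by
  rw [mem_lam]
  constructor
  · rintro ⟨x', hx, h⟩
    rw [opair_inj] at h
    obtain ⟨rfl, rfl⟩ := h
    exact ⟨hx, rfl⟩
  · rintro ⟨hx, rfl⟩
    exact ⟨x, hx, rfl⟩

theorem lam_fn {a b : V} {F : V → V} [hF : DF (fun g => F (g 0))] (h : ∀ x, x ∈ a → F x ∈ b) :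
    Fn (lam a F) a b := by
  constructor
  · intro p hp
    rw [mem_lam] at hp
    obtain ⟨x, hx, rfl⟩ := hp
    exact ⟨x, F x, hx, h x hx, rfl⟩
  · intro x hx
    refine ⟨F x, opair_mem_lam.2 ⟨hx, rfl⟩, ?_⟩
    intro y hy
    exact (opair_mem_lam.1 hy).2

theorem app_lam {a : V} {F : V → V} [hF : DF (fun g => F (g 0))] {x : V} (hx : x ∈ a) :
    app (lam a F) x = F x := by
  apply app_eq
  · exact opair_mem_lam.2 ⟨hx, rfl⟩
  · intro y hy
    exact (opair_mem_lam.1 hy).2

/-- `f` is injective on `a`. -/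
def InjOn (f a : V) : Prop := ∀ x, x ∈ a → ∀ y, y ∈ a → app f x = app f y → x = y

instance D.instInjOn {s t : (ℕ → V) → V} [hs : DF s] [ht : DF t] :
    D (fun g => InjOn (s g) (t g)) := by
  refine D.plug2 (P := fun x y => InjOn x y) ?_ hs ht
  unfold InjOn; infer_instance

end Pool.Agent.ZFM
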