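import Pool.Agent.ZFM.NoInj

set_option autoImplicit false

universe u

namespace Pool.Agent.ZFM

variable {V : Type u} [FirstOrder.Language.Structure LSet V] [ModelZF V]

/-- The value of `f` at the partition whose only possibly nontrivial block is `{a, x}`. -/
noncomputable def hh (A f a x : V) : V := app f (cpl (sing (upair a x)) A)

theorem hh_symm {A f a x : V} : hh A f a x = hh A f x a := by
  have : upair a x = upair x a := by apply ext; intro z; simp only [mem_upair]; tauto
  unfold hh
  rw [this]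

/-- The closure of `x` under `hh a` and its inverse. -/
noncomputable def cl (A f a x : V) : V :=
  sep A (fun y => ∀ K : V, (x ∈ K ∧ ∀ z, z ∈ A → (z ∈ K ↔ hh A f a z ∈ K)) → y ∈ K)

section

variable {A BB f : V} (hA : ¬ Fin' A) (hB : ∀ P, P ∈ BB ↔ FP P A) (hf : Fn f BB A)
  (hff : ∀ z, Fin' (sep BB (fun P => app f P = z)))

theorem sing_PD {F : V} (hF : Fin' F) (hs : sub F A) (hne : ∃ x, x ∈ F) : PD (sing F) A := by
  constructor
  · intro B hB
    rw [mem_sing] at hB
    subst hB
    exact ⟨hne, hs, hF⟩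
  · intro B C x hB hC _ _
    rw [mem_sing] at hB hC
    rw [hB, hC]

include hA hB hf hff in
/-- A subset of `A` with a finite-to-one map to the natural numbers is finite. -/
theorem fin_of_rank {S : V} {r : V → V} [hr : DF (fun g => r (g 0))] (hS : sub S A)
    (hro : ∀ x, x ∈ S → r x ∈ (om : V))
    (hfib : ∀ n, n ∈ (om : V) → Fin' (sep S (fun x => r x = n))) : Fin' S := by
  have hr' : ∀ (s : (ℕ → V) → V) [DF s], DF (fun g => r (s g)) := fun s hs => DF.plug1 hr hs
  by_contra hSf
  have hNo : sub (rep S r) om := by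
    intro n hn
    rw [mem_rep] at hn
    obtain ⟨x, hx, rfl⟩ := hn
    exact hro x hx
  have hNf : ¬ Fin' (rep S r) := by
    intro h
    apply hSf
    have h1 : Fin' (sU (rep (rep S r) (fun n => sep S (fun x => r x = n)))) := by
      apply fin_sU (fin_rep h)
      intro y hy
      rw [mem_rep] at hy
      obtain ⟨n, hn, rfl⟩ := hy
      exact hfib n (hNo n hn)
    apply fin_sub h1
    intro x hx
    rw [mem_sU]
    refine ⟨sep S (fun x' => r x' = r x), ?_, ?_⟩
    · rw [mem_rep]
      refine ⟨r x, ?_, rfl⟩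
      rw [mem_rep]
      exact ⟨x, hx, rfl⟩
    · rw [mem_sep]; exact ⟨hx, rfl⟩
  obtain ⟨a0, ha0⟩ := nonempty_of_not_fin hA
  obtain ⟨a1, ha1, hne⟩ : ∃ a1, a1 ∈ A ∧ a1 ≠ a0 := by
    by_contra hcon
    push Not at hcon
    apply hA
    apply fin_sub (fin_sing a0)
    intro z hz
    rw [mem_sing]
    exact hcon z hz
  have hPD : ∀ n, n ∈ rep S r → PD (sing (un (sep S (fun x => r x = n)) (upair a0 a1))) A := by
    intro n hn
    apply sing_PD (fin_un (hfib n (hNo n hn)) (fin_upair _ _))
    · intro z hz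
      rw [mem_un, mem_sep, mem_upair] at hz
      rcases hz with hz | rfl | rfl
      · exact hS z hz.1
      · exact ha0
      · exact ha1
    · exact ⟨a0, by simp⟩
  refine no_fto' hB hf hff (N := rep S r)
    (p := fun n => cpl (sing (un (sep S (fun x => r x = n)) (upair a0 a1))) A) hNo hNf
    (fun n hn => (hB _).2 (cpl_FP (hPD n hn))) ?_
  intro P _
  by_cases hP : ∃ n0, n0 ∈ rep S r ∧ cpl (sing (un (sep S (fun x => r x = n0)) (upair a0 a1))) A = P
  · obtain ⟨n0, hn0, hP0⟩ := hP
    have hfin : Fin' (rep (un (sep S (fun x => r x = n0)) (upair a0 a1)) r) :=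
      fin_rep (fin_un (hfib n0 (hNo n0 hn0)) (fin_upair _ _))
    apply fin_sub hfin
    intro n hn
    rw [mem_sep] at hn
    have h1 : un (sep S (fun x => r x = n)) (upair a0 a1) ∈
        cpl (sing (un (sep S (fun x => r x = n0)) (upair a0 a1))) A := by
      rw [hP0, ← hn.2, mem_cpl]
      left
      simp
    have h2 := mem_of_cpl h1 (x := a1) (y := a0) (by simp) (by simp) hne
    rw [mem_sing] at h2
    have h3 := hn.1
    rw [mem_rep] at h3
    obtain ⟨x, hx, hxn⟩ := h3
    rw [mem_rep]
    refine ⟨x, ?_, hxn⟩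
    rw [← h2, mem_un, mem_sep]
    exact Or.inl ⟨hx, hxn.symm⟩
  · have : sep (rep S r) (fun n => cpl (sing (un (sep S (fun x => r x = n)) (upair a0 a1))) A = P) = emp := by
      rw [eq_emp_iff]
      intro z hz
      rw [mem_sep] at hz
      exact hP ⟨z, hz⟩
    rw [this]; exact fin_emp

theorem hh_DF (A f a : V) : DF (fun g : ℕ → V => hh A f a (g 0)) := by
  unfold hh; infer_instance

theorem pair_PD {a x : V} (ha : a ∈ A) (hx : x ∈ A) : PD (sing (upair a x)) A := by
  apply sing_PD (fin_upair _ _)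
  · intro z hz
    rw [mem_upair] at hz
    rcases hz with rfl | rfl
    · exact ha
    · exact hx
  · exact ⟨a, by simp⟩

include hB hf in
theorem hh_mem {a x : V} (ha : a ∈ A) (hx : x ∈ A) : hh A f a x ∈ A :=
  hf.app_mem ((hB _).2 (cpl_FP (pair_PD ha hx)))

include hB hff in
theorem hh_fib {a : V} (ha : a ∈ A) (z : V) : Fin' (sep A (fun x => hh A f a x = z)) := by
  have hd := hh_DF A f a
  have hd' : ∀ (s : (ℕ → V) → V) [DF s], DF (fun g => hh A f a (s g)) :=
    fun s hs => DF.plug1 (F := fun k => hh A f a k) hd hs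
  have h1 : Fin' (sU (rep (sep BB (fun P => app f P = z))
      (fun P => sep A (fun x => cpl (sing (upair a x)) A = P)))) := by
    apply fin_sU (fin_rep (hff z))
    intro y hy
    rw [mem_rep] at hy
    obtain ⟨P, hP, rfl⟩ := hy
    by_cases hP : ∃ x0, x0 ∈ A ∧ cpl (sing (upair a x0)) A = P
    · obtain ⟨x0, hx0, hP0⟩ := hP
      apply fin_sub (fin_upair a x0)
      intro x hx
      rw [mem_sep] at hx
      by_cases hxa : x = a
      · rw [hxa]; simp
      · have h2 : upair a x ∈ cpl (sing (upair a x0)) A := by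
          rw [hP0, ← hx.2, mem_cpl]
          left
          simp
        have h3 := mem_of_cpl h2 (x := x) (y := a) (by simp) (by simp) hxa
        rw [mem_sing] at h3
        rw [← h3]; simp
    · have : sep A (fun x => cpl (sing (upair a x)) A = P) = emp := by
        rw [eq_emp_iff]
        intro w hw
        rw [mem_sep] at hw
        exact hP ⟨w, hw⟩
      rw [this]; exact fin_emp
  apply fin_sub h1
  intro x hx
  rw [mem_sep] at hx
  rw [mem_sU]
  refine ⟨sep A (fun x' => cpl (sing (upair a x')) A = cpl (sing (upair a x)) A), ?_, ?_⟩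
  · rw [mem_rep]
    refine ⟨cpl (sing (upair a x)) A, ?_, rfl⟩
    rw [mem_sep]
    exact ⟨(hB _).2 (cpl_FP (pair_PD ha hx.1)), hx.2⟩
  · rw [mem_sep]; exact ⟨hx.1, rfl⟩

end

end Pool.Agent.ZFM
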