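import Pool.Agent.ZFM.Main

set_option autoImplicit false

universe u

namespace Pool.Agent.ZFM

variable {V : Type u} [FirstOrder.Language.Structure LSet V] [ModelZF V]

instance DF.instHh {A f a : V} {s : (ℕ → V) → V} [hs : DF s] : DF (fun g => hh A f a (s g)) :=
  DF.plug1 (F := fun k => hh A f a k) (hh_DF A f a) hs

instance DF.instCl {A f a : V} {s : (ℕ → V) → V} [hs : DF s] : DF (fun g => cl A f a (s g)) := by
  refine DF.plug1 (F := fun k => cl A f a k) ?_ hs
  unfold cl; infer_instance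

/-- One step of the closure. -/
noncomputable def stp (A f a F : V) : V :=
  un F (un (rep F (fun y => hh A f a y)) (sep A (fun y => hh A f a y ∈ F)))

instance DF.instStp {A f a : V} {s : (ℕ → V) → V} [hs : DF s] : DF (fun g => stp A f a (s g)) := by
  refine DF.plug1 (F := fun k => stp A f a k) ?_ hs
  unfold stp; infer_instance

section

variable {A BB f : V} (hA : ¬ Fin' A) (hB : ∀ P, P ∈ BB ↔ FP P A) (hf : Fn f BB A)
  (hff : ∀ z, Fin' (sep BB (fun P => app f P = z)))

theorem self_mem_cl {a x : V} (hx : x ∈ A) : x ∈ cl A f a x := by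
  unfold cl; rw [mem_sep]; exact ⟨hx, fun K hK => hK.1⟩

theorem cl_sub {a x : V} : sub (cl A f a x) A := sep_sub

include hB hf in
theorem cl_closed {a x z : V} (ha : a ∈ A) (hz : z ∈ A) :
    z ∈ cl A f a x ↔ hh A f a z ∈ cl A f a x := by
  unfold cl
  rw [mem_sep, mem_sep]
  constructor
  · rintro ⟨_, h⟩
    exact ⟨hh_mem hB hf ha hz, fun K hK => (hK.2 z hz).1 (h K hK)⟩
  · rintro ⟨_, h⟩
    exact ⟨hz, fun K hK => (hK.2 z hz).2 (h K hK)⟩

theorem cl_trans {a x y z : V} (hy : y ∈ cl A f a x) (hz : z ∈ cl A f a y) : z ∈ cl A f a x := by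
  unfold cl at *
  rw [mem_sep] at *
  exact ⟨hz.1, fun K hK => hz.2 K ⟨hy.2 K hK, hK.2⟩⟩

include hB hf in
theorem cl_symm {a x y : V} (ha : a ∈ A) (hx : x ∈ A) (hy : y ∈ cl A f a x) : x ∈ cl A f a y := by
  by_contra hcon
  have h1 := hy
  unfold cl at h1
  rw [mem_sep] at h1
  have h2 := h1.2 (sdf A (cl A f a y)) ⟨by rw [mem_sdf]; exact ⟨hx, hcon⟩, fun z hz => by
    rw [mem_sdf, mem_sdf, cl_closed hB hf ha hz]
    exact ⟨fun h => ⟨hh_mem hB hf ha hz, h.2⟩, fun h => ⟨hz, h.2⟩⟩⟩
  rw [mem_sdf] at h2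
  exact h2.2 (self_mem_cl h1.1)

include hB hf in
theorem cl_eq {a x y z : V} (ha : a ∈ A) (hx : x ∈ A) (hy : y ∈ A) (h1 : z ∈ cl A f a x)
    (h2 : z ∈ cl A f a y) : cl A f a x = cl A f a y := by
  apply ext
  intro w
  constructor
  · intro hw
    exact cl_trans h2 (cl_trans (cl_symm hB hf ha hx h1) hw)
  · intro hw
    exact cl_trans h1 (cl_trans (cl_symm hB hf ha hy h2) hw)

include hA hB hf hff in
theorem cl_fin {a x : V} (ha : a ∈ A) (hx : x ∈ A) : Fin' (cl A f a x) := by
  -- the finite approximations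
  obtain ⟨G, hG⟩ : ∃ G, G = lam (pow A) (fun F => stp A f a F) := ⟨_, rfl⟩
  have hGapp : ∀ F, F ∈ pow A → app G F = stp A f a F := fun F hF => by rw [hG]; exact app_lam hF
  have hstp : ∀ F, F ∈ pow A → stp A f a F ∈ pow A := by
    intro F hF
    rw [mem_pow'] at hF ⊢
    intro y hy
    unfold stp at hy
    rw [mem_un, mem_un, mem_rep, mem_sep] at hy
    rcases hy with hy | ⟨z, hz, rfl⟩ | hy
    · exact hF y hy
    · exact hh_mem hB hf ha (hF z hz)
    · exact hy.1
  have hGm : ∀ F, F ∈ pow A → app G F ∈ pow A := fun F hF => by rw [hGapp F hF]; exact hstp F hF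
  have hx0 : sing x ∈ pow A := by
    rw [mem_pow']
    intro y hy
    rw [mem_sing] at hy
    rw [hy]; exact hx
  have hfn := iter_fn hx0 hGm
  have h0 := iter_zero hx0 hGm
  have hsuc : ∀ n, n ∈ (om : V) → app (iter (pow A) (sing x) G) (suc n) =
      stp A f a (app (iter (pow A) (sing x) G) n) := by
    intro n hn
    rw [iter_suc hx0 hGm hn, hGapp _ (hfn.app_mem hn)]
  obtain ⟨I, hI⟩ : ∃ I, I = iter (pow A) (sing x) G := ⟨_, rfl⟩
  rw [← hI] at hfn h0 hsuc
  -- each is finite
  have hfinI : ∀ n, n ∈ (om : V) → Fin' (app I n) := by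
    refine om_ind (P := fun n => Fin' (app I n)) ?_ ?_
    · rw [h0]; exact fin_sing x
    · intro n hn ih
      rw [hsuc n hn]
      unfold stp
      refine fin_un ih (fin_un (fin_rep ih) ?_)
      have h1 : Fin' (sU (rep (app I n) (fun z => sep A (fun y => hh A f a y = z)))) := by
        apply fin_sU (fin_rep ih)
        intro y hy
        rw [mem_rep] at hy
        obtain ⟨z, _, rfl⟩ := hy
        exact hh_fib hB hff ha z
      apply fin_sub h1
      intro y hy
      rw [mem_sep] at hy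
      rw [mem_sU]
      refine ⟨sep A (fun y' => hh A f a y' = hh A f a y), ?_, ?_⟩
      · rw [mem_rep]; exact ⟨hh A f a y, hy.2, rfl⟩
      · rw [mem_sep]; exact ⟨hy.1, rfl⟩
  -- the union is finite
  have hKfin : Fin' (sep A (fun y => ∃ n, n ∈ (om : V) ∧ y ∈ app I n)) := by
    have hmn : ∀ y, y ∈ sep A (fun y => ∃ n, n ∈ (om : V) ∧ y ∈ app I n) →
        mn (sep om (fun n => y ∈ app I n)) ∈ sep om (fun n => y ∈ app I n) := by
      intro y hy
      rw [mem_sep] at hy
      obtain ⟨_, n, hn, hyn⟩ := hy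
      exact (mn_spec sep_sub ⟨n, by rw [mem_sep]; exact ⟨hn, hyn⟩⟩).1
    apply fin_of_rank hA hB hf hff (r := fun y => mn (sep om (fun n => y ∈ app I n))) sep_sub
    · intro y hy
      have := hmn y hy
      rw [mem_sep] at this
      exact this.1
    · intro n hn
      apply fin_sub (hfinI n hn)
      intro y hy
      rw [mem_sep] at hy
      have := hmn y hy.1
      rw [hy.2, mem_sep] at this
      exact this.2
  apply fin_sub hKfin
  intro y hy
  unfold cl at hy
  rw [mem_sep] at hy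
  apply hy.2
  constructor
  · rw [mem_sep]
    refine ⟨hx, emp, emp_mem_om, ?_⟩
    rw [h0]; simp
  · intro z hz
    rw [mem_sep, mem_sep]
    constructor
    · rintro ⟨_, n, hn, hzn⟩
      refine ⟨hh_mem hB hf ha hz, suc n, suc_mem_om hn, ?_⟩
      rw [hsuc n hn]
      unfold stp
      rw [mem_un, mem_un, mem_rep]
      exact Or.inr (Or.inl ⟨z, hzn, rfl⟩)
    · rintro ⟨_, n, hn, hzn⟩
      refine ⟨hz, suc n, suc_mem_om hn, ?_⟩
      rw [hsuc n hn]
      unfold stp
      rw [mem_un, mem_un, mem_sep]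
      exact Or.inr (Or.inr ⟨hz, hzn⟩)

include hA hB hf hff in
/-- For a map `t` to the natural numbers, only finitely many values are taken on points moved
by `hh a`. -/
theorem moved_fin {t : V → V} [ht : DF (fun g => t (g 0))] (hto : ∀ x, x ∈ A → t x ∈ (om : V))
    {a : V} (ha : a ∈ A) : Fin' (rep (sep A (fun y => ¬ hh A f a y = y)) t) := by
  have ht' : ∀ (s : (ℕ → V) → V) [DF s], DF (fun g => t (s g)) := fun s hs => DF.plug1 ht hs
  by_contra hNf
  have hNo : sub (rep (sep A (fun y => ¬ hh A f a y = y)) t) om := by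
    intro n hn
    rw [mem_rep] at hn
    obtain ⟨x, hx, rfl⟩ := hn
    rw [mem_sep] at hx
    exact hto x hx.1
  have hPD : ∀ n, PD (rep (sep A (fun y => ¬ hh A f a y = y ∧ t y = n)) (fun y => cl A f a y)) A := by
    intro n
    constructor
    · intro B hB'
      rw [mem_rep] at hB'
      obtain ⟨y, hy, rfl⟩ := hB'
      rw [mem_sep] at hy
      exact ⟨⟨y, self_mem_cl hy.1⟩, cl_sub, cl_fin hA hB hf hff ha hy.1⟩
    · intro B C x hB' hC hxB hxC
      rw [mem_rep] at hB' hC
      obtain ⟨y, hy, rfl⟩ := hB'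
      obtain ⟨z, hz, rfl⟩ := hC
      rw [mem_sep] at hy hz
      exact cl_eq hB hf ha hy.1 hz.1 hxB hxC
  refine no_fto' hB hf hff (N := rep (sep A (fun y => ¬ hh A f a y = y)) t)
    (p := fun n => cpl (rep (sep A (fun y => ¬ hh A f a y = y ∧ t y = n)) (fun y => cl A f a y)) A)
    hNo hNf (fun n _ => (hB _).2 (cpl_FP (hPD n))) ?_
  intro P _
  by_cases hP : ∃ n0, n0 ∈ rep (sep A (fun y => ¬ hh A f a y = y)) t ∧
      cpl (rep (sep A (fun y => ¬ hh A f a y = y ∧ t y = n0)) (fun y => cl A f a y)) A = P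
  · obtain ⟨n0, hn0, hP0⟩ := hP
    rw [mem_rep] at hn0
    obtain ⟨y0, hy0, rfl⟩ := hn0
    rw [mem_sep] at hy0
    have hfin := cl_fin hA hB hf hff ha hy0.1
    apply fin_sub (fin_rep hfin (F := t))
    intro n hn
    rw [mem_sep] at hn
    have h1 : cl A f a y0 ∈
        cpl (rep (sep A (fun y => ¬ hh A f a y = y ∧ t y = n)) (fun y => cl A f a y)) A := by
      rw [hn.2, ← hP0, mem_cpl, mem_rep]
      left
      refine ⟨y0, ?_, rfl⟩
      rw [mem_sep]
      exact ⟨hy0.1, hy0.2, rfl⟩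
    have hy0c : y0 ∈ cl A f a y0 := self_mem_cl hy0.1
    have h2 := mem_of_cpl h1 ((cl_closed hB hf ha hy0.1).1 hy0c) hy0c hy0.2
    rw [mem_rep] at h2
    obtain ⟨y', hy', he⟩ := h2
    rw [mem_sep] at hy'
    rw [mem_rep]
    refine ⟨y', ?_, hy'.2.2.symm⟩
    rw [he]
    exact self_mem_cl hy'.1
  · have : sep (rep (sep A (fun y => ¬ hh A f a y = y)) t) (fun n =>
        cpl (rep (sep A (fun y => ¬ hh A f a y = y ∧ t y = n)) (fun y => cl A f a y)) A = P) = emp := by
      rw [eq_emp_iff]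
      intro z hz
      rw [mem_sep] at hz
      exact hP ⟨z, hz⟩
    rw [this]; exact fin_emp

/-- Union of the blocks of `a0` in the partitions which `f` maps to `b`. -/
noncomputable def dd (BB f a0 b : V) : V :=
  sU (rep (sep BB (fun P => app f P = b)) (fun P => sU (sep P (fun B => a0 ∈ B))))

instance DF.instDd {BB f a0 : V} {s : (ℕ → V) → V} [hs : DF s] :
    DF (fun g => dd BB f a0 (s g)) := by
  refine DF.plug1 (F := fun k => dd BB f a0 k) ?_ hs
  unfold dd; infer_instance

include hB hff in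
theorem dd_fin {a0 b : V} (ha0 : a0 ∈ A) : Fin' (dd BB f a0 b) := by
  unfold dd
  apply fin_sU (fin_rep (hff b))
  intro y hy
  rw [mem_rep] at hy
  obtain ⟨P, hP, rfl⟩ := hy
  rw [mem_sep] at hP
  have hFP := (hB P).1 hP.1
  obtain ⟨B0, hB0, ha0B⟩ := hFP.2.2 a0 ha0
  have : sep P (fun B => a0 ∈ B) = sing B0 := by
    apply ext; intro B
    rw [mem_sep, mem_sing]
    constructor
    · rintro ⟨hB', h⟩; exact hFP.2.1 B B0 a0 hB' hB0 h ha0B
    · rintro rfl; exact ⟨hB0, ha0B⟩
  rw [this]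
  have h2 : sU (sing B0) = B0 := by apply ext; intro z; simp
  rw [h2]
  exact (hFP.1 B0 hB0).2.2

include hB in
theorem sub_dd {a0 F : V} (ha0 : a0 ∈ A) (hF : Fin' F) (hFA : sub F A) :
    sub F (dd BB f a0 (app f (cpl (sing (un F (sing a0))) A))) := by
  intro z hz
  unfold dd
  rw [mem_sU]
  have hPD : PD (sing (un F (sing a0))) A := by
    apply sing_PD (fin_ins hF a0)
    · intro w hw
      rw [mem_un, mem_sing] at hw
      rcases hw with hw | rfl
      · exact hFA w hw
      · exact ha0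
    · exact ⟨a0, by simp⟩
  refine ⟨sU (sep (cpl (sing (un F (sing a0))) A) (fun B => a0 ∈ B)), ?_, ?_⟩
  · rw [mem_rep]
    refine ⟨cpl (sing (un F (sing a0))) A, ?_, rfl⟩
    rw [mem_sep]
    exact ⟨(hB _).2 (cpl_FP hPD), rfl⟩
  · rw [mem_sU]
    refine ⟨un F (sing a0), ?_, by simp [hz]⟩
    rw [mem_sep, mem_cpl]
    exact ⟨Or.inl (by simp), by simp⟩

include hA hB hf hff in
theorem main_false : False := by
  obtain ⟨a0, ha0⟩ := nonempty_of_not_fin hA
  -- the map t
  have hto : ∀ x, x ∈ A → card (dd BB f a0 x) ∈ (om : V) := fun x _ => card_mem (dd_fin hB hff ha0)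
  have hRo : sub (rep A (fun b => card (dd BB f a0 b))) om := by
    intro n hn
    rw [mem_rep] at hn
    obtain ⟨x, hx, rfl⟩ := hn
    exact hto x hx
  have hRf : ¬ Fin' (rep A (fun b => card (dd BB f a0 b))) := by
    intro h
    obtain ⟨n, hn, hRn⟩ := fin_bdd h hRo
    obtain ⟨F, hFA, hF, hFc⟩ := exists_card hA n hn
    have h1 := sub_dd (f := f) hB ha0 hF hFA
    have h2 := card_mono (dd_fin (f := f) hB hff ha0) F h1
    rw [hFc] at h2
    have hbA : app f (cpl (sing (un F (sing a0))) A) ∈ A := by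
      apply hf.app_mem
      refine (hB _).2 (cpl_FP ?_)
      apply sing_PD (fin_ins hF a0)
      · intro w hw
        rw [mem_un, mem_sing] at hw
        rcases hw with hw | rfl
        · exact hFA w hw
        · exact ha0
      · exact ⟨a0, by simp⟩
    have h3 := hRn (card (dd BB f a0 (app f (cpl (sing (un F (sing a0))) A)))) (by
      rw [mem_rep]; exact ⟨_, hbA, rfl⟩)
    rw [mem_suc] at h2
    rcases h2 with h2 | h2
    · exact nat_asymm hn h3 h2
    · rw [← h2] at h3
      exact nat_irrefl hn h3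
  -- the rank
  have hE : ∀ a, a ∈ A → ∃ n, n ∈ sdf (rep A (fun b => card (dd BB f a0 b)))
      (rep (sep A (fun y => ¬ hh A f a y = y)) (fun b => card (dd BB f a0 b))) := by
    intro a ha
    by_contra hcon
    push Not at hcon
    apply hRf
    apply fin_sub (moved_fin hA hB hf hff (t := fun b => card (dd BB f a0 b)) hto ha)
    intro n hn
    by_contra hn'
    exact hcon n (by rw [mem_sdf]; exact ⟨hn, hn'⟩)
  have hEs : ∀ a, a ∈ A → mn (sdf (rep A (fun b => card (dd BB f a0 b)))
      (rep (sep A (fun y => ¬ hh A f a y = y)) (fun b => card (dd BB f a0 b)))) ∈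
      sdf (rep A (fun b => card (dd BB f a0 b)))
      (rep (sep A (fun y => ¬ hh A f a y = y)) (fun b => card (dd BB f a0 b))) := by
    intro a ha
    refine (mn_spec (fun n hn => ?_) (hE a ha)).1
    rw [mem_sdf] at hn
    exact hRo n hn.1
  apply hA
  have hhh : ∀ (s t : (ℕ → V) → V) [DF s] [DF t], DF (fun g => hh A f (s g) (t g)) := by
    intro s t hs ht
    unfold hh; infer_instance
  refine fin_of_rank hA hB hf hff (S := A) (r := fun a => mn (sdf (rep A (fun b => card (dd BB f a0 b)))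
      (rep (sep A (fun y => ¬ hh A f a y = y)) (fun b => card (dd BB f a0 b))))) (sub_refl _) ?_ ?_
  · intro a ha
    have := hEs a ha
    rw [mem_sdf] at this
    exact hRo _ this.1
  · intro j hj
    by_cases hne : ∃ a, a ∈ A ∧ mn (sdf (rep A (fun b => card (dd BB f a0 b)))
      (rep (sep A (fun y => ¬ hh A f a y = y)) (fun b => card (dd BB f a0 b)))) = j
    · obtain ⟨a1, ha1, hj1⟩ := hne
      have h1 := hEs a1 ha1
      rw [hj1, mem_sdf, mem_rep] at h1
      obtain ⟨⟨x, hx, hxj⟩, _⟩ := h1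
      apply fin_sub (hh_fib hB hff hx x)
      intro a ha
      rw [mem_sep] at ha ⊢
      refine ⟨ha.1, ?_⟩
      have h2 := hEs a ha.1
      rw [ha.2, mem_sdf, mem_rep, mem_rep] at h2
      by_contra hcon
      apply h2.2
      refine ⟨x, ?_, hxj⟩
      rw [mem_sep]
      refine ⟨hx, ?_⟩
      rw [hh_symm]
      exact hcon
    · have : sep A (fun a => mn (sdf (rep A (fun b => card (dd BB f a0 b)))
          (rep (sep A (fun y => ¬ hh A f a y = y)) (fun b => card (dd BB f a0 b)))) = j) = emp := by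
        rw [eq_emp_iff]
        intro z hz
        rw [mem_sep] at hz
        exact hne ⟨z, hz⟩
      rw [this]; exact fin_emp

end

end Pool.Agent.ZFM
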