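import Pool.Agent.ZFM.Diag

set_option autoImplicit false

universe u

namespace Pool.Agent.ZFM

variable {V : Type u} [FirstOrder.Language.Structure LSet V] [ModelZF V]

instance D.instGood {s t : (ℕ → V) → V} [hs : DF s] [ht : DF t] :
    D (fun g => Good (s g) (t g)) := by
  refine D.plug2 (P := fun x y => Good x y) ?_ hs ht
  unfold Good
  infer_instance

section

variable {A BB f : V} (hA : ¬ Fin' A) (hB : ∀ P, P ∈ BB ↔ FP P A) (hf : Fn f BB A)
  (hff : ∀ z, Fin' (sep BB (fun P => app f P = z)))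

/-- finite-to-one maps to `BB` compose with `f` to finite-to-one maps. -/
theorem fib_comp (hff : ∀ z, Fin' (sep BB (fun P => app f P = z))) {N : V} {p : V → V}
    [hp : DF (fun g => p (g 0))]
    (hpB : ∀ n, n ∈ N → p n ∈ BB) (hfib : ∀ P, P ∈ BB → Fin' (sep N (fun n => p n = P))) :
    ∀ a, Fin' (sep N (fun n => app (lam N (fun n => app f (p n))) n = a)) := by
  have hp' : ∀ (s : (ℕ → V) → V) [DF s], DF (fun g => p (s g)) := fun s hs => DF.plug1 hp hs
  intro a
  have h1 : Fin' (sU (rep (sep BB (fun P => app f P = a)) (fun P => sep N (fun n => p n = P)))) := by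
    apply fin_sU (fin_rep (hff a))
    intro y hy
    rw [mem_rep] at hy
    obtain ⟨P, hP, rfl⟩ := hy
    rw [mem_sep] at hP
    exact hfib P hP.1
  apply fin_sub h1
  intro n hn
  rw [mem_sep] at hn
  rw [app_lam hn.1] at hn
  rw [mem_sU]
  refine ⟨sep N (fun n' => p n' = p n), ?_, ?_⟩
  · rw [mem_rep]
    refine ⟨p n, ?_, rfl⟩
    rw [mem_sep]
    exact ⟨hpB n hn.1, hn.2⟩
  · rw [mem_sep]
    exact ⟨hn.1, rfl⟩

include hB hf hff in
theorem newseq_spec {W : V} (hW : Good A W) (hne : ∃ s, s ∈ W) :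
    Fn (newseq A BB f W) om A ∧ InjOn (newseq A BB f W) om ∧
      ∀ s, s ∈ W → ∀ i, i ∈ (om : V) → ∀ j, j ∈ (om : V) → app (newseq A BB f W) i ≠ app s j := by
  obtain ⟨s0, hs0⟩ := hne
  have hp1 : DF (fun g : ℕ → V => cpl (blks BB f W (g 0)) A) := by
    unfold blks mu; infer_instance
  have hp1' : ∀ (s : (ℕ → V) → V) [DF s], DF (fun g => cpl (blks BB f W (s g)) A) :=
    fun s hs => DF.plug1 (F := fun k => cpl (blks BB f W k) A) hp1 hs
  have hmem : ∀ k, k ∈ (om : V) → cpl (blks BB f W k) A ∈ BB := fun k hk =>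
    (hB _).2 (cpl_FP (blks_PD hff hW hk))
  have hfib := fib_comp (N := om) (p := fun k => cpl (blks BB f W k) A) hff hmem (by
    intro P _
    by_cases hP : ∃ k0, k0 ∈ (om : V) ∧ cpl (blks BB f W k0) A = P
    · obtain ⟨k0, hk0, hP0⟩ := hP
      have hM := mu_spec (BB := BB) (f := f) (s := s0) (n := emp) hff hk0
      apply fin_sub (fin_nat (suc_mem_om hM.1))
      intro k hk
      rw [mem_sep] at hk
      have hMk := mu_spec (BB := BB) (f := f) (s := s0) (n := emp) hff hk.1
      have h1 : blk s0 emp (mu BB f s0 emp k) ∈ cpl (blks BB f W k) A :=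
        (blk_mem_cpl hff hW hk.1 hs0 emp_mem_om hMk.1).2 rfl
      rw [hk.2, ← hP0] at h1
      have h2 := (blk_mem_cpl hff hW hk0 hs0 emp_mem_om hMk.1).1 h1
      rw [← h2, mem_suc]
      exact hMk.2.1
    · have : sep om (fun n => cpl (blks BB f W n) A = P) = emp := by
        rw [eq_emp_iff]
        intro z hz
        rw [mem_sep] at hz
        exact hP ⟨z, hz⟩
      rw [this]; exact fin_emp)
  have hN := not_fin_om (V := V)
  refine ⟨?_, ?_, ?_⟩
  · apply thin_fn (sub_refl _) hN hfib
    intro n hn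
    rw [app_lam hn]
    exact hf.app_mem (hmem n hn)
  · exact thin_inj (sub_refl _) hN hfib
  · intro s hs i hi j hj h
    have h2 : Fn (newseq A BB f W) om (sdf A (sing (app s j))) := by
      apply thin_fn (sub_refl _) hN hfib
      intro n hn
      rw [app_lam hn, mem_sdf, mem_sing]
      exact ⟨hf.app_mem (hmem n hn), app_cpl_ne hB hff hW hn hs hj⟩
    have h3 := h2.app_mem hi
    rw [mem_sdf, mem_sing] at h3
    exact h3.2 h

include hB hf hff in
/-- `A` is Dedekind finite. -/
theorem no_inj : ¬ ∃ s, Fn s om A ∧ InjOn s om := by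
  rintro ⟨s0, hs0, hi0⟩
  have hX : Tow (newseq A BB f) (sing s0)
      (sep (pow (pow (prod om A))) (fun W => Good A W ∧ ∃ s, s ∈ W)) := by
    refine ⟨?_, ?_, ?_⟩
    · rw [mem_sep, mem_pow]
      refine ⟨?_, ⟨?_, ?_⟩, ⟨s0, by simp⟩⟩
      · intro s hs
        rw [mem_sing] at hs
        subst hs
        exact mem_pow'.2 hs0.sub_prod
      · intro s hs
        rw [mem_sing] at hs
        subst hs
        exact ⟨hs0, hi0⟩
      · intro s hs s' hs' _ _ _ _ _
        rw [mem_sing] at hs hs'
        rw [hs, hs']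
    · intro W hW
      rw [mem_sep, mem_pow] at hW ⊢
      obtain ⟨hWp, hWg, hne⟩ := hW
      have hn := newseq_spec hB hf hff hWg hne
      refine ⟨?_, ⟨?_, ?_⟩, ?_⟩
      · intro s hs
        rw [mem_un, mem_sing] at hs
        rcases hs with hs | rfl
        · exact hWp s hs
        · exact mem_pow'.2 hn.1.sub_prod
      · intro s hs
        rw [mem_un, mem_sing] at hs
        rcases hs with hs | rfl
        · exact hWg.1 s hs
        · exact ⟨hn.1, hn.2.1⟩
      · intro s hs s' hs' i hi j hj h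
        rw [mem_un, mem_sing] at hs hs'
        rcases hs with hs | rfl <;> rcases hs' with hs' | rfl
        · exact hWg.2 s hs s' hs' i hi j hj h
        · exact absurd h.symm (hn.2.2 s hs j hj i hi)
        · exact absurd h (hn.2.2 s' hs' i hi j hj)
        · rfl
      · obtain ⟨s, hs⟩ := hne
        exact ⟨s, by simp [hs]⟩
    · intro C hC hne hch
      have hC' : ∀ W, W ∈ C → (∀ s, s ∈ W → s ∈ pow (prod om A)) ∧ Good A W ∧ ∃ s, s ∈ W := by
        intro W hW
        have := hC W hW
        rw [mem_sep, mem_pow] at this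
        exact this
      rw [mem_sep, mem_pow]
      refine ⟨?_, ⟨?_, ?_⟩, ?_⟩
      · intro s hs
        rw [mem_sU] at hs
        obtain ⟨W, hW, hs⟩ := hs
        exact (hC' W hW).1 s hs
      · intro s hs
        rw [mem_sU] at hs
        obtain ⟨W, hW, hs⟩ := hs
        exact (hC' W hW).2.1.1 s hs
      · intro s hs s' hs' i hi j hj h
        rw [mem_sU] at hs hs'
        obtain ⟨W, hW, hs⟩ := hs
        obtain ⟨W', hW', hs'⟩ := hs'
        rcases hch W hW W' hW' with h1 | h1
        · exact (hC' W' hW').2.1.2 s (h1 s hs) s' hs' i hi j hj h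
        · exact (hC' W hW).2.1.2 s hs s' (h1 s' hs') i hi j hj h
      · obtain ⟨W, hW⟩ := hne
        obtain ⟨s, hs⟩ := (hC' W hW).2.2
        exact ⟨s, by rw [mem_sU]; exact ⟨W, hW, hs⟩⟩
  have hdf : DF (fun g : ℕ → V => newseq A BB f (g 0)) := inferInstance
  obtain ⟨W, hW, hmem⟩ := tower_fix (hΓ := hdf) hX
  rw [mem_sep] at hW
  exact (newseq_spec hB hf hff hW.2.1 hW.2.2).2.2 _ hmem emp emp_mem_om emp emp_mem_om rfl

include hB hf hff in
/-- There is no finite-to-one map from an infinite set of naturals to `A`. -/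
theorem no_fto {N g : V} (hN : sub N om) (hNf : ¬ Fin' N) (hg : ∀ n, n ∈ N → app g n ∈ A)
    (hfib : ∀ a, Fin' (sep N (fun n => app g n = a))) : False :=
  no_inj hB hf hff ⟨thin N g, thin_fn hN hNf hfib hg, thin_inj hN hNf hfib⟩

include hB hf hff in
/-- There is no finite-to-one map from an infinite set of naturals to `BB`. -/
theorem no_fto' {N : V} {p : V → V} [hp : DF (fun g => p (g 0))] (hN : sub N om) (hNf : ¬ Fin' N)
    (hpB : ∀ n, n ∈ N → p n ∈ BB) (hfib : ∀ P, P ∈ BB → Fin' (sep N (fun n => p n = P))) :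
    False := by
  have hp' : ∀ (s : (ℕ → V) → V) [DF s], DF (fun g => p (s g)) := fun s hs => DF.plug1 hp hs
  refine no_fto hB hf hff (g := lam N (fun n => app f (p n))) hN hNf ?_ (fib_comp hff hpB hfib)
  intro n hn
  rw [app_lam hn]
  exact hf.app_mem (hpB n hn)

end

end Pool.Agent.ZFM
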