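import Pool.Agent.ZFM.Funs

set_option autoImplicit false

universe u

namespace Pool.Agent.ZFM

variable {V : Type u} [FirstOrder.Language.Structure LSet V] [ModelZF V]

/-- Successor. -/
noncomputable def suc (x : V) : V := un x (sing x)

@[simp] theorem mem_suc {x z : V} : z ∈ suc x ↔ z ∈ x ∨ z = x := by simp [suc]

instance DF.instSuc {s : (ℕ → V) → V} [hs : DF s] : DF (fun g => suc (s g)) := by
  unfold suc; infer_instance

/-- Inductive sets. -/
def Ind (I : V) : Prop := emp ∈ I ∧ ∀ y, y ∈ I → suc y ∈ I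

theorem isInductive_iff {I : V} : IsInductive I ↔ Ind I := by
  unfold IsInductive Ind
  have h1 : (∃ e, Mem e I ∧ ∀ z, ¬ Mem z e) ↔ emp ∈ I := by
    constructor
    · rintro ⟨e, he, h⟩
      have : e = emp := eq_emp_iff.2 h
      rw [← this]; exact he
    · intro h; exact ⟨emp, h, not_mem_emp⟩
  have h2 : ∀ y, (∃ s, Mem s I ∧ ∀ z, Mem z s ↔ (Mem z y ∨ z = y)) ↔ suc y ∈ I := by
    intro y
    constructor
    · rintro ⟨s, hs, h⟩
      have : s = suc y := by
        apply ext; intro z; rw [mem_suc]; exact h z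
      rw [← this]; exact hs
    · intro h; exact ⟨suc y, h, fun z => mem_suc⟩
  rw [h1]
  simp only [h2]
  rfl

instance D.instInd {s : (ℕ → V) → V} [hs : DF s] : D (fun g => Ind (s g)) := by
  unfold Ind
  have hs1 : DF (fun g => s (tl g)) := hs.comp (Sub.tl (σ := fun g => g))
  exact D.instAnd (h1 := inferInstance) (h2 := D.instAll (h := D.instImp (h1 := inferInstance) (h2 := inferInstance)))

theorem exists_omega : ∃ w : V, ∀ n : V, n ∈ w ↔ ∀ I : V, Ind I → n ∈ I := by
  obtain ⟨I, hI⟩ := ModelZF.infinity (M := V)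
  have hI' : Ind I := isInductive_iff.1 hI
  refine ⟨sep I (fun n => ∀ J : V, Ind J → n ∈ J), fun n => ?_⟩
  rw [mem_sep]
  exact ⟨fun h => h.2, fun h => ⟨h I hI', h⟩⟩

/-- The set of natural numbers of the model. -/
noncomputable def om : V := Classical.choose exists_omega

theorem mem_om {n : V} : n ∈ (om : V) ↔ ∀ I : V, Ind I → n ∈ I := Classical.choose_spec exists_omega n

theorem isNatural_iff {n : V} : IsNatural n ↔ n ∈ (om : V) := by
  rw [mem_om]
  unfold IsNatural
  simp only [isInductive_iff]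
  rfl

@[simp] theorem emp_mem_om : (emp : V) ∈ (om : V) := mem_om.2 fun _ h => h.1

@[simp] theorem suc_mem_om {n : V} (h : n ∈ (om : V)) : suc n ∈ (om : V) :=
  mem_om.2 fun I hI => hI.2 _ (mem_om.1 h I hI)

/-- Induction. -/
theorem om_ind {P : V → Prop} [hP : D (fun g => P (g 0))] (h0 : P emp)
    (hs : ∀ n, n ∈ (om : V) → P n → P (suc n)) : ∀ n, n ∈ (om : V) → P n := by
  intro n hn
  have hI : Ind (sep om P) := by
    constructor
    · rw [mem_sep]; exact ⟨emp_mem_om, h0⟩
    · intro y hy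
      rw [mem_sep] at hy ⊢
      exact ⟨suc_mem_om hy.1, hs y hy.1 hy.2⟩
  have := mem_om.1 hn _ hI
  rw [mem_sep] at this
  exact this.2

theorem om_cases {n : V} (h : n ∈ (om : V)) : n = emp ∨ ∃ m, m ∈ (om : V) ∧ n = suc m := by
  refine om_ind (P := fun n => n = emp ∨ ∃ m, m ∈ (om : V) ∧ n = suc m) (Or.inl rfl) ?_ n h
  intro n hn _
  exact Or.inr ⟨n, hn, rfl⟩

theorem om_trans {n m : V} (hn : n ∈ (om : V)) (hm : m ∈ n) : m ∈ (om : V) := by
  refine om_ind (P := fun n => ∀ m, m ∈ n → m ∈ (om : V)) (by simp) ?_ n hn m hm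
  clear hm hn
  intro n hn ih m hm
  rw [mem_suc] at hm
  rcases hm with hm | rfl
  · exact ih m hm
  · exact hn

/-- natural numbers are transitive -/
theorem nat_trans {n m k : V} (hn : n ∈ (om : V)) (hk : k ∈ m) (hm : m ∈ n) : k ∈ n := by
  refine om_ind (P := fun n => ∀ m, m ∈ n → ∀ k, k ∈ m → k ∈ n) (by simp) ?_ n hn m hm k hk
  clear hm hk hn
  intro n hn ih m hm k hk
  rw [mem_suc] at hm ⊢
  rcases hm with hm | rfl
  · exact Or.inl (ih m hm k hk)
  · exact Or.inl hk

theorem nat_trans' {n : V} (hn : n ∈ (om : V)) : ∀ m, m ∈ n → ∀ k, k ∈ m → k ∈ n :=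
  fun _ hm _ hk => nat_trans hn hk hm

theorem nat_irrefl {n : V} (hn : n ∈ (om : V)) : ¬ n ∈ n := by
  refine om_ind (P := fun n => ¬ n ∈ n) (by simp) ?_ n hn
  clear hn
  intro n hn ih h
  rw [mem_suc] at h
  rcases h with h | h
  · exact ih (nat_trans hn (by simp) h)
  · apply ih
    have : n ∈ suc n := by simp
    rw [h] at this
    exact this

theorem nat_asymm {n m : V} (hn : n ∈ (om : V)) (h : m ∈ n) : ¬ n ∈ m := by
  intro h'
  exact nat_irrefl hn (nat_trans hn h' h)

theorem emp_mem_suc {n : V} (hn : n ∈ (om : V)) : emp ∈ suc n := by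
  refine om_ind (P := fun n => emp ∈ suc n) (by simp) ?_ n hn
  clear hn
  intro n hn ih
  rw [mem_suc]
  exact Or.inl ih

theorem suc_mem_suc {n m : V} (hn : n ∈ (om : V)) (h : m ∈ n) : suc m ∈ suc n := by
  refine om_ind (P := fun n => ∀ m, m ∈ n → suc m ∈ suc n) (by simp) ?_ n hn m h
  clear h hn
  intro n hn ih m hm
  rw [mem_suc] at hm
  rcases hm with hm | rfl
  · rw [mem_suc]
    exact Or.inl (ih m hm)
  · simp

theorem nat_total {n m : V} (hn : n ∈ (om : V)) (hm : m ∈ (om : V)) : n ∈ m ∨ n = m ∨ m ∈ n := by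
  refine om_ind (P := fun n => ∀ m, m ∈ (om : V) → n ∈ m ∨ n = m ∨ m ∈ n) ?_ ?_ n hn m hm
  all_goals clear hn hm
  · intro m hm
    rcases om_cases hm with rfl | ⟨k, hk, rfl⟩
    · simp
    · exact Or.inl (emp_mem_suc hk)
  · intro n hn ih m hm
    rcases om_cases hm with rfl | ⟨k, hk, rfl⟩
    · exact Or.inr (Or.inr (emp_mem_suc hn))
    · rcases ih k hk with h | rfl | h
      · exact Or.inl (suc_mem_suc hk h)
      · exact Or.inr (Or.inl rfl)
      · exact Or.inr (Or.inr (suc_mem_suc hn h))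

theorem suc_inj {n m : V} (hn : n ∈ (om : V)) (hm : m ∈ (om : V)) (h : suc n = suc m) : n = m := by
  rcases nat_total hn hm with h' | h' | h'
  · have := suc_mem_suc hm h'
    rw [h] at this
    exact absurd this (nat_irrefl (suc_mem_om hm))
  · exact h'
  · have := suc_mem_suc hn h'
    rw [h] at this
    exact absurd this (nat_irrefl (suc_mem_om hm))

theorem suc_ne_emp (n : V) : suc n ≠ emp := by
  intro h
  have : n ∈ suc n := by simp
  rw [h] at this
  simp at this

/-- Least element. -/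
theorem om_least {P : V → Prop} [hP : D (fun g => P (g 0))] {n : V} (hn : n ∈ (om : V)) (h : P n) :
    ∃ m, m ∈ (om : V) ∧ P m ∧ ∀ k, k ∈ m → ¬ P k := by
  by_contra hcon
  push Not at hcon
  have : ∀ n, n ∈ (om : V) → ∀ k, k ∈ n → ¬ P k := by
    refine om_ind (P := fun n => ∀ k, k ∈ n → ¬ P k) (hP := ?_) (by simp) ?_
    · refine D.instAll (P := fun g k => k ∈ g 0 → ¬ P k) (h := D.instImp (h1 := inferInstance) (h2 := D.instNot (h1 := ?_)))
      exact hP
    · intro n hn ih k hk
      rw [mem_suc] at hk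
      rcases hk with hk | rfl
      · exact ih k hk
      · intro hPk
        obtain ⟨j, hj, hPj⟩ := hcon k hn hPk
        exact ih j hj hPj
  exact this (suc n) (suc_mem_om hn) n (by simp) h

/-- The least element of a set of natural numbers. -/
noncomputable def mn (N : V) : V := sU (sep N (fun n => ∀ k, k ∈ N → ¬ k ∈ n))

instance DF.instMn {s : (ℕ → V) → V} [hs : DF s] : DF (fun g => mn (s g)) := by
  refine DF.plug1 (F := fun x => mn x) ?_ hs
  unfold mn; infer_instance

theorem mn_spec {N : V} (hN : sub N om) (hne : ∃ n, n ∈ N) :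
    mn N ∈ N ∧ ∀ k, k ∈ N → ¬ k ∈ mn N := by
  obtain ⟨n, hn⟩ := hne
  obtain ⟨m, hm, hmN, hmin⟩ := om_least (P := fun n => n ∈ N) (hN n hn) hn
  have : mn N = m := by
    unfold mn
    have h1 : sep N (fun n => ∀ k, k ∈ N → ¬ k ∈ n) = sing m := by
      apply ext
      intro z
      rw [mem_sep, mem_sing]
      constructor
      · rintro ⟨hz, h⟩
        rcases nat_total (hN z hz) hm with h' | h' | h'
        · exact absurd hz (hmin z h')
        · exact h'
        · exact absurd h' (h m hmN)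
      · rintro rfl
        refine ⟨hmN, fun k hk hk' => hmin k hk' hk⟩
    rw [h1]
    apply ext; intro z; simp
  rw [this]
  exact ⟨hmN, fun k hk hk' => hmin k hk' hk⟩

end Pool.Agent.ZFM
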