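import Pool.Agent.ZFM.Thin

set_option autoImplicit false

universe u

namespace Pool.Agent.ZFM

variable {V : Type u} [FirstOrder.Language.Structure LSet V] [ModelZF V]

/-- Families of pairwise disjoint nonempty finite subsets of `A`. -/
def PD (P A : V) : Prop :=
  (∀ B, B ∈ P → (∃ x, x ∈ B) ∧ (∀ x, x ∈ B → x ∈ A) ∧ Fin' B) ∧
    (∀ B C x, B ∈ P → C ∈ P → x ∈ B → x ∈ C → B = C)

/-- Finitary partitions. -/
def FP (P A : V) : Prop :=
  (∀ B, B ∈ P → (∃ x, x ∈ B) ∧ (∀ x, x ∈ B → x ∈ A) ∧ Fin' B) ∧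
    (∀ B C x, B ∈ P → C ∈ P → x ∈ B → x ∈ C → B = C) ∧
      ∀ x, x ∈ A → ∃ B, B ∈ P ∧ x ∈ B

theorem isFP_iff {P A : V} : IsFinitaryPartition P A ↔ FP P A := by
  unfold IsFinitaryPartition FP
  simp only [isFinite_iff]
  rfl

/-- Complete a disjoint family by singletons. -/
noncomputable def cpl (N A : V) : V := un N (rep (sdf A (sU N)) (fun y => sing y))

instance DF.instCpl {s t : (ℕ → V) → V} [hs : DF s] [ht : DF t] :
    DF (fun g => cpl (s g) (t g)) := by
  refine DF.plug2 (F := fun x y => cpl x y) ?_ hs ht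
  unfold cpl; infer_instance

theorem mem_cpl {N A B : V} : B ∈ cpl N A ↔ B ∈ N ∨ ∃ y, (y ∈ A ∧ ¬ ∃ C, C ∈ N ∧ y ∈ C) ∧ B = sing y := by
  unfold cpl
  rw [mem_un, mem_rep]
  simp only [mem_sdf, mem_sU]

theorem mem_of_cpl {N A B : V} (hB : B ∈ cpl N A) {x y : V} (hx : x ∈ B) (hy : y ∈ B)
    (hxy : x ≠ y) : B ∈ N := by
  rw [mem_cpl] at hB
  rcases hB with h | ⟨z, _, rfl⟩
  · exact h
  · rw [mem_sing] at hx hy
    exact absurd (hx.trans hy.symm) hxy

theorem cpl_FP {N A : V} (h : PD N A) : FP (cpl N A) A := by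
  refine ⟨?_, ?_, ?_⟩
  · intro B hB
    rw [mem_cpl] at hB
    rcases hB with hB | ⟨y, hy, rfl⟩
    · exact h.1 B hB
    · refine ⟨⟨y, by simp⟩, ?_, fin_sing y⟩
      intro x hx
      rw [mem_sing] at hx
      rw [hx]; exact hy.1
  · intro B C x hB hC hxB hxC
    rw [mem_cpl] at hB hC
    rcases hB with hB | ⟨y, hy, rfl⟩
    · rcases hC with hC | ⟨z, hz, rfl⟩
      · exact h.2 B C x hB hC hxB hxC
      · rw [mem_sing] at hxC
        subst hxC
        exact absurd ⟨B, hB, hxB⟩ hz.2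
    · rw [mem_sing] at hxB
      subst hxB
      rcases hC with hC | ⟨z, hz, rfl⟩
      · exact absurd ⟨C, hC, hxC⟩ hy.2
      · rw [mem_sing] at hxC
        rw [hxC]
  · intro x hx
    by_cases hN : ∃ C, C ∈ N ∧ x ∈ C
    · obtain ⟨C, hC, hxC⟩ := hN
      exact ⟨C, mem_cpl.2 (Or.inl hC), hxC⟩
    · exact ⟨sing x, mem_cpl.2 (Or.inr ⟨x, ⟨hx, hN⟩, rfl⟩), by simp⟩

/-- `blk s n m` is a pair of values of `s`. -/
noncomputable def blk (s n m : V) : V :=
  upair (app s (pr (pr n m) emp)) (app s (pr (pr n m) (suc emp)))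

instance DF.instBlk {s t r : (ℕ → V) → V} [hs : DF s] [ht : DF t] [hr : DF r] :
    DF (fun g => blk (s g) (t g) (r g)) := by
  unfold blk; infer_instance

/-- `m` is the only index with `blk s n m` in `P`. -/
def OnlyBlk (s n m P : V) : Prop := ∀ m', m' ∈ (om : V) → (blk s n m' ∈ P ↔ m' = m)

/-- A code of the least index `≥ k` which avoids all partitions that `f` maps to `s n`. -/
noncomputable def mu (BB f s n k : V) : V :=
  mn (sep om (fun m => (k ∈ m ∨ k = m) ∧ ¬ ∃ P, P ∈ BB ∧ app f P = app s n ∧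
    ∀ m', m' ∈ (om : V) → (blk s n m' ∈ P ↔ m' = m)))

/-- blocks used at stage `k` -/
noncomputable def blks (BB f W k : V) : V :=
  sU (rep W (fun s => rep om (fun n => blk s n (mu BB f s n k))))

/-- The new sequence. -/
noncomputable def newseq (A BB f W : V) : V :=
  thin om (lam om (fun k => app f (cpl (blks BB f W k) A)))

instance DF.instNewseq (A BB f : V) : DF (fun g : ℕ → V => newseq A BB f (g 0)) := by
  unfold newseq blks mu
  infer_instance

/-- families of injective sequences with pairwise disjoint ranges -/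
def Good (A W : V) : Prop :=
  (∀ s, s ∈ W → Fn s om A ∧ InjOn s om) ∧
    ∀ s, s ∈ W → ∀ s', s' ∈ W → ∀ i, i ∈ (om : V) → ∀ j, j ∈ (om : V) → app s i = app s' j → s = s'

end Pool.Agent.ZFM
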