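import Pool.Agent.ZFM.Omega

set_option autoImplicit false

universe u

namespace Pool.Agent.ZFM

variable {V : Type u} [FirstOrder.Language.Structure LSet V] [ModelZF V]

/-- Closure under the recursion clauses. -/
def RecCl (a G r : V) : Prop :=
  opair emp a ∈ r ∧ ∀ n x, n ∈ (om : V) → opair n x ∈ r → opair (suc n) (app G x) ∈ r

instance D.instRecCl {s t r : (ℕ → V) → V} [hs : DF s] [ht : DF t] [hr : DF r] :
    D (fun g => RecCl (s g) (t g) (r g)) := by
  refine D.plug3 (P := fun x y z => RecCl x y z) ?_ hs ht hr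
  unfold RecCl
  infer_instance

/-- The function on the natural numbers defined by recursion from `a` and the function `G`
from `X` to `X`. -/
noncomputable def iter (X a G : V) : V :=
  sep (prod om X) (fun p => ∀ r : V, RecCl a G r → p ∈ r)

instance DF.instIter {s t r : (ℕ → V) → V} [hs : DF s] [ht : DF t] [hr : DF r] :
    DF (fun g => iter (s g) (t g) (r g)) := by
  refine DF.plug3 (F := fun x y z => iter x y z) ?_ hs ht hr
  unfold iter
  infer_instance

section
variable {X a G : V}

theorem iter_cl (ha : a ∈ X) (hG : ∀ x, x ∈ X → app G x ∈ X) : RecCl a G (iter X a G) := by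
  constructor
  · unfold iter
    rw [mem_sep]
    exact ⟨by simp [ha], fun r hr => hr.1⟩
  · intro n x hn hx
    unfold iter at *
    rw [mem_sep] at *
    rw [opair_mem_prod] at *
    exact ⟨⟨suc_mem_om hn, hG x hx.1.2⟩, fun r hr => hr.2 n x hn (hx.2 r hr)⟩

theorem iter_min {r p : V} (hr : RecCl a G r) (hp : p ∈ iter X a G) : p ∈ r := by
  unfold iter at hp
  rw [mem_sep] at hp
  exact hp.2 r hr

theorem iter_unique (ha : a ∈ X) (hG : ∀ x, x ∈ X → app G x ∈ X) :
    ∀ n, n ∈ (om : V) → ∃! x, opair n x ∈ iter X a G := by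
  have hcl := iter_cl ha hG
  refine om_ind (P := fun n => ∃! x, opair n x ∈ iter X a G) ?_ ?_
  · refine ⟨a, hcl.1, ?_⟩
    intro y hy
    by_contra hne
    have : RecCl a G (sdf (iter X a G) (sing (opair emp y))) := by
      constructor
      · rw [mem_sdf, mem_sing, opair_inj]
        exact ⟨hcl.1, fun h => hne h.2.symm⟩
      · intro n x hn hx
        rw [mem_sdf, mem_sing] at *
        refine ⟨hcl.2 n x hn hx.1, ?_⟩
        rw [opair_inj]
        intro h
        exact suc_ne_emp n h.1
    have := iter_min this hy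
    rw [mem_sdf, mem_sing] at this
    exact this.2 rfl
  · rintro n hn ⟨x, hx, hu⟩
    refine ⟨app G x, hcl.2 n x hn hx, ?_⟩
    intro y hy
    by_contra hne
    have : RecCl a G (sdf (iter X a G) (sing (opair (suc n) y))) := by
      constructor
      · rw [mem_sdf, mem_sing, opair_inj]
        exact ⟨hcl.1, fun h => suc_ne_emp n h.1.symm⟩
      · intro m z hm hz
        rw [mem_sdf, mem_sing] at *
        refine ⟨hcl.2 m z hm hz.1, ?_⟩
        rw [opair_inj]
        rintro ⟨h1, h2⟩
        have := suc_inj hm hn h1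
        subst this
        have := hu z hz.1
        subst this
        exact hne h2.symm
    have := iter_min this hy
    rw [mem_sdf, mem_sing] at this
    exact this.2 rfl

theorem iter_fn (ha : a ∈ X) (hG : ∀ x, x ∈ X → app G x ∈ X) : Fn (iter X a G) om X := by
  refine ⟨?_, iter_unique ha hG⟩
  intro p hp
  unfold iter at hp
  rw [mem_sep, mem_prod] at hp
  exact hp.1

theorem iter_zero (ha : a ∈ X) (hG : ∀ x, x ∈ X → app G x ∈ X) : app (iter X a G) emp = a :=
  ((iter_fn ha hG).mem_iff.1 (iter_cl ha hG).1).2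

theorem iter_suc (ha : a ∈ X) (hG : ∀ x, x ∈ X → app G x ∈ X) {n : V} (hn : n ∈ (om : V)) :
    app (iter X a G) (suc n) = app G (app (iter X a G) n) := by
  have h1 := (iter_fn ha hG).mem_iff.2 ⟨hn, rfl⟩
  exact ((iter_fn ha hG).mem_iff.1 ((iter_cl ha hG).2 _ _ hn h1)).2

end

end Pool.Agent.ZFM
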