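import Pool.Agent.ZFM.Dfb

set_option autoImplicit false

universe u

namespace Pool.Agent.ZFM

section

variable {V : Type u} [FirstOrder.Language.Structure LSet V]

/-- Plug in a ternary predicate. -/
theorem D.plug3 {P : V → V → V → Prop} (hP : D (fun g => P (g 0) (g 1) (g 2)))
    {f h k : (ℕ → V) → V} (hf : DF f) (hh : DF h) (hk : DF k) :
    D (fun g => P (f g) (h g) (k g)) := by
  refine D.plug (P := fun g x => P x (h g) (k g)) ?_ hf
  have h' : DF (fun g => h (tl g)) := hh.comp (Sub.tl (σ := fun g => g))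
  have k' : DF (fun g => k (tl g)) := hk.comp (Sub.tl (σ := fun g => g))
  refine D.plug (P := fun g x => P (g 0) x (k (tl g))) (f := fun g => h (tl g)) ?_ h'
  have k'' : DF (fun g => k (tl (tl g))) := k'.comp (Sub.tl (σ := fun g => g))
  refine D.plug (P := fun g x => P (g 1) (g 0) x) (f := fun g => k (tl (tl g))) ?_ k''
  have hs : Sub (fun g : ℕ → V => push (g 2) (push (g 1) (push (g 0) (fun n => g (n+3))))) := by
    constructor
    intro i
    match i with
    | 0 => exact Or.inr ⟨2, fun _ => rfl⟩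
    | 1 => exact Or.inr ⟨1, fun _ => rfl⟩
    | 2 => exact Or.inr ⟨0, fun _ => rfl⟩
    | (n+3) => exact Or.inr ⟨n+3, fun _ => rfl⟩
  exact hP.subst hs

theorem DF.congr {f h : (ℕ → V) → V} (hf : DF f) (e : ∀ g, f g = h g) : DF h := by
  have : f = h := funext e
  exact this ▸ hf

theorem DF.mk' {f : (ℕ → V) → V} {Q : (ℕ → V) → V → Prop}
    (hQ : D (fun g => Q (tl g) (g 0))) (h : ∀ g z, z = f g ↔ Q g z) : DF f :=
  ⟨hQ.congr (fun g => (h _ _).symm)⟩

theorem DF.plug1 {F : V → V} (hF : DF (fun g => F (g 0))) {f : (ℕ → V) → V} (hf : DF f) :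
    DF (fun g => F (f g)) := by
  constructor
  exact D.plug2 (P := fun x y => x = F y) hF.out (f := fun g => g 0) (h := fun g => f (tl g))
    inferInstance (hf.comp (Sub.tl (σ := fun g => g)))

theorem DF.plug2 {F : V → V → V} (hF : DF (fun g => F (g 0) (g 1))) {f h : (ℕ → V) → V}
    (hf : DF f) (hh : DF h) : DF (fun g => F (f g) (h g)) := by
  constructor
  exact D.plug3 (P := fun x y z => x = F y z) hF.out (f := fun g => g 0)
    (h := fun g => f (tl g)) (k := fun g => h (tl g))
    inferInstance (hf.comp (Sub.tl (σ := fun g => g))) (hh.comp (Sub.tl (σ := fun g => g)))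

theorem DF.plug3 {F : V → V → V → V} (hF : DF (fun g => F (g 0) (g 1) (g 2)))
    {f h k : (ℕ → V) → V}
    (hf : DF f) (hh : DF h) (hk : DF k) : DF (fun g => F (f g) (h g) (k g)) := by
  constructor
  have hf1 : DF (fun g => f (tl g)) := hf.comp (Sub.tl (σ := fun g => g))
  have hh1 : DF (fun g => h (tl g)) := hh.comp (Sub.tl (σ := fun g => g))
  have hk1 : DF (fun g => k (tl g)) := hk.comp (Sub.tl (σ := fun g => g))
  have hk2 : DF (fun g => k (tl (tl g))) := hk1.comp (Sub.tl (σ := fun g => g))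
  have hh2 : DF (fun g => h (tl (tl g))) := hh1.comp (Sub.tl (σ := fun g => g))
  have hf2 : DF (fun g => f (tl (tl g))) := hf1.comp (Sub.tl (σ := fun g => g))
  have hk3 : DF (fun g => k (tl (tl (tl g)))) := hk2.comp (Sub.tl (σ := fun g => g))
  have hh3 : DF (fun g => h (tl (tl (tl g)))) := hh2.comp (Sub.tl (σ := fun g => g))
  have hk4 : DF (fun g => k (tl (tl (tl (tl g))))) := hk3.comp (Sub.tl (σ := fun g => g))
  have key : D (fun g => ∃ x, x = f (tl g) ∧ ∃ y, y = h (tl g) ∧ ∃ z, z = k (tl g) ∧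
      g 0 = F x y z) := by
    refine D.instEx (h := ?_)
    refine D.instAnd (h1 := D.instEq (ht := hf2)) (h2 := ?_)
    refine D.instEx (P := fun g y => y = h (tl (tl g)) ∧ ∃ z, z = k (tl (tl g)) ∧
      g 1 = F (g 0) y z) (h := ?_)
    refine D.instAnd (h1 := D.instEq (ht := hh3)) (h2 := ?_)
    refine D.instEx (P := fun g z => z = k (tl (tl (tl g))) ∧
      g 2 = F (g 1) (g 0) z) (h := ?_)
    refine D.instAnd (h1 := D.instEq (ht := hk4)) (h2 := ?_)
    have hs : Sub (fun g : ℕ → V => push (g 3) (push (g 2) (push (g 1) (push (g 0)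
        (fun n => g (n+4)))))) := by
      constructor
      intro i
      match i with
      | 0 => exact Or.inr ⟨3, fun _ => rfl⟩
      | 1 => exact Or.inr ⟨2, fun _ => rfl⟩
      | 2 => exact Or.inr ⟨1, fun _ => rfl⟩
      | 3 => exact Or.inr ⟨0, fun _ => rfl⟩
      | (n+4) => exact Or.inr ⟨n+4, fun _ => rfl⟩
    exact hF.out.subst hs
  refine key.congr (fun g => ?_)
  constructor
  · rintro ⟨x, rfl, y, rfl, z, rfl, h⟩; exact h
  · intro h; exact ⟨_, rfl, _, rfl, _, rfl, h⟩

/-- Fixing all parameters. -/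
theorem D.fix {P : (ℕ → V) → V → Prop} (hP : D (fun g => P (tl g) (g 0))) (g : ℕ → V) :
    D (fun g' => P g (g' 0)) := by
  have hs : Sub (fun g' : ℕ → V => push (g' 0) g) := by
    constructor
    intro i
    match i with
    | 0 => exact Or.inr ⟨0, fun _ => rfl⟩
    | (n+1) => exact Or.inl ⟨g n, fun _ => rfl⟩
  exact hP.subst hs

theorem DF.fix {F : (ℕ → V) → V → V} (hF : DF (fun g => F (tl g) (g 0))) (g : ℕ → V) :
    DF (fun g' => F g (g' 0)) := by
  have hs : Sub (fun g' : ℕ → V => push (g' 0) g) := by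
    constructor
    intro i
    match i with
    | 0 => exact Or.inr ⟨0, fun _ => rfl⟩
    | (n+1) => exact Or.inl ⟨g n, fun _ => rfl⟩
  exact hF.comp hs

theorem D.underTl {P : (ℕ → V) → V → Prop} (hP : D (fun g => P (tl g) (g 0))) :
    D (fun g => P (tl (tl g)) (g 0)) := by
  have hs : Sub (fun g : ℕ → V => push (g 0) (tl (tl g))) := by
    constructor
    intro i
    match i with
    | 0 => exact Or.inr ⟨0, fun _ => rfl⟩
    | (n+1) => exact Or.inr ⟨n+2, fun _ => rfl⟩
  exact hP.subst hs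

theorem DF.underTl {F : (ℕ → V) → V → V} (hF : DF (fun g => F (tl g) (g 0))) :
    DF (fun g => F (tl (tl g)) (g 0)) := by
  have hs : Sub (fun g : ℕ → V => push (g 0) (tl (tl g))) := by
    constructor
    intro i
    match i with
    | 0 => exact Or.inr ⟨0, fun _ => rfl⟩
    | (n+1) => exact Or.inr ⟨n+2, fun _ => rfl⟩
  exact hF.comp hs

/-- Membership of the model. -/
instance instMemV : Membership V V := ⟨fun y x => Mem x y⟩

theorem mem_def (x y : V) : x ∈ y ↔ Mem x y := Iff.rfl

instance D.instMem' {s t : (ℕ → V) → V} [hs : DF s] [ht : DF t] :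
    D (fun g => s g ∈ t g) := D.instMem

instance D.instExU {P : (ℕ → V) → V → Prop} [h : D (fun g => P (tl g) (g 0))] :
    D (fun g => ∃! x, P g x) := by
  have h1 : D (fun g => P (tl (tl g)) (g 0)) := h.underTl
  have h2 : D (fun g => ∃ x, P g x ∧ ∀ y, P g y → y = x) := by
    have h3 : D (fun g : ℕ → V => ∀ y, P (tl g) y → y = g 0) := by
      refine D.instAll (P := fun g y => P (tl g) y → y = g 0) (h := ?_)
      exact D.instImp (h1 := h1) (h2 := inferInstance)
    exact D.instEx (h := D.instAnd (h1 := h) (h2 := h3))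
  exact h2.congr (fun g => Iff.rfl)

end

section

variable {V : Type u} [FirstOrder.Language.Structure LSet V] [ModelZF V]

theorem ext {x y : V} (h : ∀ z, z ∈ x ↔ z ∈ y) : x = y := ModelZF.extensionality x y h

theorem eq_iff_mem {x y : V} : x = y ↔ ∀ z, z ∈ x ↔ z ∈ y := ⟨fun h z => by rw [h], ext⟩

/-! unordered pairs -/

/-- `{x, y}` -/
noncomputable def upair (x y : V) : V := Classical.choose (ModelZF.pairing x y)

@[simp] theorem mem_upair {x y w : V} : w ∈ upair x y ↔ w = x ∨ w = y :=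
  Classical.choose_spec (ModelZF.pairing x y) w

instance DF.instUpair {s t : (ℕ → V) → V} [hs : DF s] [ht : DF t] :
    DF (fun g => upair (s g) (t g)) := by
  refine DF.plug2 (F := fun x y => upair x y) ?_ hs ht
  refine DF.mk' (Q := fun g z => ∀ w, w ∈ z ↔ (w = g 0 ∨ w = g 1)) inferInstance ?_
  intro g z
  rw [eq_iff_mem]
  simp

/-! union -/

/-- `⋃ x` -/
noncomputable def sU (x : V) : V := Classical.choose (ModelZF.union x)

@[simp] theorem mem_sU {x z : V} : z ∈ sU x ↔ ∃ w, w ∈ x ∧ z ∈ w :=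
  Classical.choose_spec (ModelZF.union x) z

instance DF.instSU {s : (ℕ → V) → V} [hs : DF s] : DF (fun g => sU (s g)) := by
  refine DF.plug1 (F := fun x => sU x) ?_ hs
  refine DF.mk' (Q := fun g z => ∀ w, w ∈ z ↔ ∃ v, v ∈ g 0 ∧ w ∈ v) inferInstance ?_
  intro g z
  rw [eq_iff_mem]
  simp

/-! powerset -/

/-- powerset -/
noncomputable def pow (x : V) : V := Classical.choose (ModelZF.powerset x)

@[simp] theorem mem_pow {x z : V} : z ∈ pow x ↔ ∀ w, w ∈ z → w ∈ x :=
  Classical.choose_spec (ModelZF.powerset x) z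

instance DF.instPow {s : (ℕ → V) → V} [hs : DF s] : DF (fun g => pow (s g)) := by
  refine DF.plug1 (F := fun x => pow x) ?_ hs
  refine DF.mk' (Q := fun g z => ∀ w, w ∈ z ↔ ∀ v, v ∈ w → v ∈ g 0) inferInstance ?_
  intro g z
  rw [eq_iff_mem]
  simp

/-! separation -/

theorem exists_sep {P : V → Prop} (hP : D (fun g => P (g 0))) (a : V) :
    ∃ y : V, ∀ z : V, z ∈ y ↔ z ∈ a ∧ P z := by
  obtain ⟨y, hy⟩ := ModelZF.separation _ hP.definable1 a
  exact ⟨y, hy⟩

open Classical in
/-- `{z ∈ a | P z}` -/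
noncomputable def sep (a : V) (P : V → Prop) : V :=
  if h : ∃ y : V, ∀ z : V, z ∈ y ↔ z ∈ a ∧ P z then Classical.choose h else a

theorem mem_sep {a : V} {P : V → Prop} [hP : D (fun g => P (g 0))] {z : V} :
    z ∈ sep a P ↔ z ∈ a ∧ P z := by
  have h := exists_sep hP a
  unfold sep
  rw [dif_pos h]
  exact Classical.choose_spec h z

instance DF.instSep {s : (ℕ → V) → V} {P : (ℕ → V) → V → Prop} [hs : DF s]
    [hP : D (fun g => P (tl g) (g 0))] : DF (fun g => sep (s g) (P g)) := by
  have hs' : DF (fun g => s (tl (tl g))) := hs.comp (Sub.tl (σ := fun g => tl g))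
  have hP' : D (fun g => P (tl (tl g)) (g 0)) := hP.underTl
  refine DF.mk' (Q := fun g z => ∀ w, w ∈ z ↔ (w ∈ s g ∧ P g w)) ?_ ?_
  · refine D.instAll (h := ?_)
    exact D.instIff (h1 := inferInstance) (h2 := D.instAnd (h1 := D.instMem' (ht := hs')) (h2 := hP'))
  · intro g z
    have := hP.fix g
    rw [eq_iff_mem]
    simp only [mem_sep]

/-! replacement -/

theorem exists_rep {F : V → V} (hF : DF (fun g => F (g 0))) (a : V) :
    ∃ w : V, ∀ z : V, z ∈ w ↔ ∃ y, y ∈ a ∧ z = F y := by
  have h1 : D (fun g => g 1 = F (g 0)) := by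
    have := hF.out
    exact D.plug2 (P := fun x y => x = F y) this (f := fun g => g 1) (h := fun g => g 0)
      inferInstance inferInstance
  obtain ⟨w, hw⟩ := ModelZF.replacement _ (D.definable2 (R := fun x y => y = F x) h1) a
    (fun y _ => ⟨F y, rfl, fun z hz => hz⟩)
  exact ⟨w, hw⟩

open Classical in
/-- `{F x | x ∈ a}` -/
noncomputable def rep (a : V) (F : V → V) : V :=
  if h : ∃ w : V, ∀ z : V, z ∈ w ↔ ∃ y, y ∈ a ∧ z = F y then Classical.choose h else a

theorem mem_rep {a : V} {F : V → V} [hF : DF (fun g => F (g 0))] {z : V} :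
    z ∈ rep a F ↔ ∃ y, y ∈ a ∧ z = F y := by
  have h := exists_rep hF a
  unfold rep
  rw [dif_pos h]
  exact Classical.choose_spec h z

instance DF.instRep {s : (ℕ → V) → V} {F : (ℕ → V) → V → V} [hs : DF s]
    [hF : DF (fun g => F (tl g) (g 0))] : DF (fun g => rep (s g) (F g)) := by
  have hs' : DF (fun g => s (tl (tl (tl g)))) := hs.comp (Sub.tl (σ := fun g => tl (tl g)))
  have hF' : DF (fun g => F (tl (tl (tl g))) (g 0)) := by
    have := hF.underTl
    exact (DF.underTl (F := fun g x => F (tl g) x) this)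
  refine DF.mk' (Q := fun g z => ∀ w, w ∈ z ↔ ∃ y, y ∈ s g ∧ w = F g y) ?_ ?_
  · refine D.instAll (h := ?_)
    refine D.instIff (h1 := inferInstance) (h2 := ?_)
    refine D.instEx (P := fun g y => y ∈ s (tl (tl g)) ∧ g 0 = F (tl (tl g)) y) (h := ?_)
    exact D.instAnd (h1 := D.instMem' (ht := hs')) (h2 := D.instEq (ht := hF'))
  · intro g z
    have := hF.fix g
    rw [eq_iff_mem]
    simp only [mem_rep]

end

end Pool.Agent.ZFM
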