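import Pool.Agent.ZFM.Tower

set_option autoImplicit false

universe u

namespace Pool.Agent.ZFM

variable {V : Type u} [FirstOrder.Language.Structure LSet V] [ModelZF V]

/-! an injection from pairs of natural numbers to natural numbers -/

/-- The function `n ↦ n + 2`. -/
noncomputable def add2 : V := lam om (fun n => suc (suc n))

/-- Doubling. -/
noncomputable def dbl : V := iter om emp add2

theorem add2_app {n : V} (hn : n ∈ (om : V)) : app add2 n = suc (suc n) := app_lam hn

theorem add2_mem : ∀ n, n ∈ (om : V) → app add2 n ∈ (om : V) := by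
  intro n hn
  rw [add2_app hn]
  exact suc_mem_om (suc_mem_om hn)

theorem dbl_fn : Fn (dbl : V) om om := iter_fn emp_mem_om add2_mem

theorem dbl_mem {n : V} (hn : n ∈ (om : V)) : app dbl n ∈ (om : V) := dbl_fn.app_mem hn

theorem dbl_emp : app (dbl : V) emp = emp := iter_zero emp_mem_om add2_mem

theorem dbl_suc {n : V} (hn : n ∈ (om : V)) : app dbl (suc n) = suc (suc (app dbl n)) := by
  unfold dbl
  rw [iter_suc emp_mem_om add2_mem hn]
  exact add2_app (dbl_mem hn)

theorem dbl_inj : ∀ n, n ∈ (om : V) → ∀ m, m ∈ (om : V) → app dbl n = app dbl m → n = m := by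
  refine om_ind (P := fun n => ∀ m, m ∈ (om : V) → app dbl n = app dbl m → n = m) ?_ ?_
  · intro m hm h
    rcases om_cases hm with rfl | ⟨k, hk, rfl⟩
    · rfl
    · rw [dbl_emp, dbl_suc hk] at h
      exact absurd h.symm (suc_ne_emp _)
  · intro n hn ih m hm h
    rcases om_cases hm with rfl | ⟨k, hk, rfl⟩
    · rw [dbl_emp, dbl_suc hn] at h
      exact absurd h (suc_ne_emp _)
    · rw [dbl_suc hn, dbl_suc hk] at h
      have h1 := suc_inj (suc_mem_om (dbl_mem hn)) (suc_mem_om (dbl_mem hk)) h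
      have h2 := suc_inj (dbl_mem hn) (dbl_mem hk) h1
      rw [ih k hk h2]

theorem dbl_ne : ∀ n, n ∈ (om : V) → ∀ m, m ∈ (om : V) → app dbl n ≠ suc (app dbl m) := by
  refine om_ind (P := fun n => ∀ m, m ∈ (om : V) → ¬ app dbl n = suc (app dbl m)) ?_ ?_
  · intro m hm h
    rw [dbl_emp] at h
    exact suc_ne_emp _ h.symm
  · intro n hn ih m hm h
    rw [dbl_suc hn] at h
    have h1 := suc_inj (suc_mem_om (dbl_mem hn)) (dbl_mem hm) h
    rcases om_cases hm with rfl | ⟨k, hk, rfl⟩
    · rw [dbl_emp] at h1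
      exact suc_ne_emp _ h1
    · rw [dbl_suc hk] at h1
      have h2 := suc_inj (dbl_mem hn) (suc_mem_om (dbl_mem hk)) h1
      exact ih k hk h2

/-- The pairing function `2 ^ n * (2 m + 1)`. -/
noncomputable def pr (n m : V) : V := app (iter om (suc (app dbl m)) dbl) n

instance DF.instPr {s t : (ℕ → V) → V} [hs : DF s] [ht : DF t] :
    DF (fun g => pr (s g) (t g)) := by
  refine DF.plug2 (F := fun x y => pr x y) ?_ hs ht
  unfold pr; infer_instance

theorem pr_emp {m : V} (hm : m ∈ (om : V)) : pr emp m = suc (app dbl m) :=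
  iter_zero (suc_mem_om (dbl_mem hm)) (fun _ h => dbl_mem h)

theorem pr_suc {n m : V} (hn : n ∈ (om : V)) (hm : m ∈ (om : V)) : pr (suc n) m = app dbl (pr n m) :=
  iter_suc (suc_mem_om (dbl_mem hm)) (fun _ h => dbl_mem h) hn

theorem pr_mem {n m : V} (hn : n ∈ (om : V)) (hm : m ∈ (om : V)) : pr n m ∈ (om : V) :=
  (iter_fn (suc_mem_om (dbl_mem hm)) (fun _ h => dbl_mem h)).app_mem hn

theorem pr_inj : ∀ n, n ∈ (om : V) → ∀ n', n' ∈ (om : V) → ∀ m, m ∈ (om : V) →
    ∀ m', m' ∈ (om : V) → pr n m = pr n' m' → n = n' ∧ m = m' := by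
  refine om_ind (P := fun n => ∀ n', n' ∈ (om : V) → ∀ m, m ∈ (om : V) →
    ∀ m', m' ∈ (om : V) → pr n m = pr n' m' → n = n' ∧ m = m') ?_ ?_
  · intro n' hn' m hm m' hm' h
    rcases om_cases hn' with rfl | ⟨k, hk, rfl⟩
    · rw [pr_emp hm, pr_emp hm'] at h
      exact ⟨rfl, dbl_inj _ hm _ hm' (suc_inj (dbl_mem hm) (dbl_mem hm') h)⟩
    · rw [pr_emp hm, pr_suc hk hm'] at h
      exact absurd h.symm (dbl_ne _ (pr_mem hk hm') _ hm)
  · intro n hn ih n' hn' m hm m' hm' h
    rcases om_cases hn' with rfl | ⟨k, hk, rfl⟩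
    · rw [pr_emp hm', pr_suc hn hm] at h
      exact absurd h (dbl_ne _ (pr_mem hn hm) _ hm')
    · rw [pr_suc hn hm, pr_suc hk hm'] at h
      have h1 := dbl_inj _ (pr_mem hn hm) _ (pr_mem hk hm') h
      obtain ⟨h2, h3⟩ := ih k hk m hm m' hm' h1
      exact ⟨by rw [h2], h3⟩

/-! increasing enumeration of an infinite set of natural numbers -/

/-- The next element of `N`. -/
noncomputable def nxt (N : V) : V := lam N (fun n => mn (sep N (fun m => n ∈ m)))

instance DF.instNxt {s : (ℕ → V) → V} [hs : DF s] : DF (fun g => nxt (s g)) := by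
  refine DF.plug1 (F := fun x => nxt x) ?_ hs
  unfold nxt; infer_instance

/-- The enumeration of `N`. -/
noncomputable def enum (N : V) : V := iter N (mn N) (nxt N)

instance DF.instEnum {s : (ℕ → V) → V} [hs : DF s] : DF (fun g => enum (s g)) := by
  refine DF.plug1 (F := fun x => enum x) ?_ hs
  unfold enum; infer_instance

section
variable {N : V}

theorem nonempty_of_not_fin (hNf : ¬ Fin' N) : ∃ n, n ∈ N := by
  rw [← ne_emp_iff]
  rintro rfl
  exact hNf fin_emp

theorem nxt_spec (hN : sub N om) (hNf : ¬ Fin' N) {n : V} (hn : n ∈ N) :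
    app (nxt N) n ∈ N ∧ n ∈ app (nxt N) n := by
  have h1 : app (nxt N) n = mn (sep N (fun m => n ∈ m)) := app_lam hn
  rw [h1]
  have h2 : sub (sep N (fun m => n ∈ m)) om := sub_trans sep_sub hN
  obtain ⟨m, hm, hnm⟩ := unbdd_of_not_fin hN hNf (hN n hn)
  have h3 := mn_spec h2 ⟨m, by rw [mem_sep]; exact ⟨hm, hnm⟩⟩
  have h4 := h3.1
  rw [mem_sep] at h4
  exact h4

theorem enum_fn (hN : sub N om) (hNf : ¬ Fin' N) : Fn (enum N) om N :=
  iter_fn (mn_spec hN (nonempty_of_not_fin hNf)).1 (fun _ h => (nxt_spec hN hNf h).1)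

theorem enum_suc (hN : sub N om) (hNf : ¬ Fin' N) {n : V} (hn : n ∈ (om : V)) :
    app (enum N) n ∈ app (enum N) (suc n) := by
  have : app (enum N) (suc n) = app (nxt N) (app (enum N) n) :=
    iter_suc (mn_spec hN (nonempty_of_not_fin hNf)).1 (fun _ h => (nxt_spec hN hNf h).1) hn
  rw [this]
  exact (nxt_spec hN hNf ((enum_fn hN hNf).app_mem hn)).2

theorem enum_lt (hN : sub N om) (hNf : ¬ Fin' N) : ∀ n, n ∈ (om : V) → ∀ m, m ∈ n →
    app (enum N) m ∈ app (enum N) n := by
  refine om_ind (P := fun n => ∀ m, m ∈ n → app (enum N) m ∈ app (enum N) n) (by simp) ?_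
  intro n hn ih m hm
  rw [mem_suc] at hm
  rcases hm with hm | rfl
  · exact nat_trans (hN _ ((enum_fn hN hNf).app_mem (suc_mem_om hn))) (ih m hm) (enum_suc hN hNf hn)
  · exact enum_suc hN hNf hn

theorem enum_inj (hN : sub N om) (hNf : ¬ Fin' N) : InjOn (enum N) om := by
  intro x hx y hy h
  have hm : ∀ x, x ∈ (om : V) → app (enum N) x ∈ (om : V) := fun x hx =>
    hN _ ((enum_fn hN hNf).app_mem hx)
  rcases nat_total hx hy with h1 | h1 | h1
  · have := enum_lt hN hNf y hy x h1
    rw [h] at this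
    exact absurd this (nat_irrefl (hm y hy))
  · exact h1
  · have := enum_lt hN hNf x hx y h1
    rw [h] at this
    exact absurd this (nat_irrefl (hm y hy))

end

/-! thinning out a finite-to-one sequence -/

/-- First occurrences of values of `g` on `N`. -/
noncomputable def firsts (N g : V) : V :=
  sep N (fun n => ∀ m, m ∈ N → m ∈ n → ¬ app g m = app g n)

instance DF.instFirsts {s t : (ℕ → V) → V} [hs : DF s] [ht : DF t] :
    DF (fun g => firsts (s g) (t g)) := by
  refine DF.plug2 (F := fun x y => firsts x y) ?_ hs ht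
  unfold firsts; infer_instance

/-- The injective sequence extracted from a finite-to-one `g` on `N`. -/
noncomputable def thin (N g : V) : V := lam om (fun k => app g (app (enum (firsts N g)) k))

instance DF.instThin {s t : (ℕ → V) → V} [hs : DF s] [ht : DF t] :
    DF (fun g => thin (s g) (t g)) := by
  refine DF.plug2 (F := fun x y => thin x y) ?_ hs ht
  unfold thin; infer_instance

section
variable {N g : V}

theorem firsts_sub : sub (firsts N g) N := sep_sub

theorem firsts_not_fin (hN : sub N om) (hNf : ¬ Fin' N)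
    (hfib : ∀ a, Fin' (sep N (fun n => app g n = a))) : ¬ Fin' (firsts N g) := by
  intro hf
  apply hNf
  have h1 : Fin' (sU (rep (firsts N g) (fun m => sep N (fun n => app g n = app g m)))) := by
    apply fin_sU (fin_rep hf)
    intro y hy
    rw [mem_rep] at hy
    obtain ⟨m, _, rfl⟩ := hy
    exact hfib _
  apply fin_sub h1
  intro n hn
  obtain ⟨m, hm, hmN, hmin⟩ := om_least (P := fun m => m ∈ N ∧ app g m = app g n) (hN n hn) ⟨hn, rfl⟩
  rw [mem_sU]
  refine ⟨sep N (fun n => app g n = app g m), ?_, ?_⟩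
  · rw [mem_rep]
    refine ⟨m, ?_, rfl⟩
    unfold firsts
    rw [mem_sep]
    refine ⟨hmN.1, fun k hk hkm h => hmin k hkm ⟨hk, h.trans hmN.2⟩⟩
  · rw [mem_sep]
    exact ⟨hn, hmN.2.symm⟩

theorem firsts_inj (hN : sub N om) {m n : V} (hm : m ∈ firsts N g) (hn : n ∈ firsts N g)
    (h : app g m = app g n) : m = n := by
  unfold firsts at hm hn
  rw [mem_sep] at hm hn
  rcases nat_total (hN m hm.1) (hN n hn.1) with h1 | h1 | h1
  · exact absurd h (hn.2 m hm.1 h1)
  · exact h1
  · exact absurd h.symm (hm.2 n hn.1 h1)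

theorem thin_fn {B : V} (hN : sub N om) (hNf : ¬ Fin' N)
    (hfib : ∀ a, Fin' (sep N (fun n => app g n = a))) (hg : ∀ n, n ∈ N → app g n ∈ B) :
    Fn (thin N g) om B := by
  refine lam_fn fun k hk => hg _ (firsts_sub (g := g) _ ?_)
  exact (enum_fn (sub_trans firsts_sub hN) (firsts_not_fin hN hNf hfib)).app_mem hk

theorem thin_inj (hN : sub N om) (hNf : ¬ Fin' N)
    (hfib : ∀ a, Fin' (sep N (fun n => app g n = a))) :
    InjOn (thin N g) om := by
  have h1 := sub_trans (firsts_sub (N := N) (g := g)) hN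
  have h2 := firsts_not_fin hN hNf hfib
  intro x hx y hy h
  unfold thin at h
  rw [app_lam hx, app_lam hy] at h
  have h3 := firsts_inj hN ((enum_fn h1 h2).app_mem hx) ((enum_fn h1 h2).app_mem hy) h
  exact enum_inj h1 h2 x hx y hy h3

end

end Pool.Agent.ZFM
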