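import Pool.Agent.ZFM.Card

set_option autoImplicit false

universe u

namespace Pool.Agent.ZFM

variable {V : Type u} [FirstOrder.Language.Structure LSet V] [ModelZF V]

/-- `C` is a chain for inclusion. -/
def Chn (C : V) : Prop := ∀ W, W ∈ C → ∀ W', W' ∈ C → sub W W' ∨ sub W' W

instance D.instChn {s : (ℕ → V) → V} [hs : DF s] : D (fun g => Chn (s g)) := by
  refine D.plug1 (P := fun x => Chn x) ?_ hs
  unfold Chn
  infer_instance

/-- Towers over `W0` for the step `W ↦ W ∪ {Γ W}`. -/
def Tow (Γ : V → V) (W0 T : V) : Prop :=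
  W0 ∈ T ∧ (∀ W, W ∈ T → un W (sing (Γ W)) ∈ T) ∧
    ∀ C, sub C T → (∃ W, W ∈ C) → Chn C → sU C ∈ T

theorem tower_fix {X W0 : V} {Γ : V → V} [hΓ : DF (fun g => Γ (g 0))] (hX : Tow Γ W0 X) :
    ∃ W, W ∈ X ∧ Γ W ∈ W := by
  have hΓ' : ∀ (s : (ℕ → V) → V) [DF s], DF (fun g => Γ (s g)) := fun s hs => DF.plug1 hΓ hs
  have hT : D (fun g : ℕ → V => Tow Γ W0 (g 0)) := by unfold Tow; infer_instance
  have hT' : ∀ (s : (ℕ → V) → V) [DF s], D (fun g => Tow Γ W0 (s g)) := fun s hs => D.plug1 hT hs
  obtain ⟨T0, hT0⟩ : ∃ T0, T0 = sep X (fun W => ∀ T, Tow Γ W0 T → W ∈ T) := ⟨_, rfl⟩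
  have mT0 : ∀ W, W ∈ T0 ↔ W ∈ X ∧ ∀ T, Tow Γ W0 T → W ∈ T := by
    intro W; rw [hT0, mem_sep]
  have mT0' : ∀ W, W ∈ T0 → ∀ T, Tow Γ W0 T → W ∈ T := fun W hW => ((mT0 W).1 hW).2
  have tT0 : Tow Γ W0 T0 := by
    refine ⟨?_, ?_, ?_⟩
    · rw [mT0]; exact ⟨hX.1, fun T hT => hT.1⟩
    · intro W hW
      rw [mT0] at hW ⊢
      exact ⟨hX.2.1 W hW.1, fun T hT => hT.2.1 W (hW.2 T hT)⟩
    · intro C hC hne hch
      rw [mT0]
      refine ⟨hX.2.2 C (fun W hW => ((mT0 W).1 (hC W hW)).1) hne hch, fun T hT => ?_⟩
      exact hT.2.2 C (fun W hW => mT0' W (hC W hW) T hT) hne hch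
  -- every member contains W0
  have hbot : ∀ W, W ∈ T0 → sub W0 W := by
    have h1 : Tow Γ W0 (sep T0 (fun W => sub W0 W)) := by
      refine ⟨?_, ?_, ?_⟩
      · rw [mem_sep]; exact ⟨tT0.1, sub_refl _⟩
      · intro W hW
        rw [mem_sep] at hW ⊢
        refine ⟨tT0.2.1 W hW.1, fun z hz => ?_⟩
        rw [mem_un]; exact Or.inl (hW.2 z hz)
      · intro C hC hne hch
        rw [mem_sep]
        refine ⟨tT0.2.2 C (fun W hW => ?_) hne hch, ?_⟩
        · have := hC W hW; rw [mem_sep] at this; exact this.1
        · obtain ⟨W, hW⟩ := hne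
          have := hC W hW; rw [mem_sep] at this
          intro z hz
          rw [mem_sU]; exact ⟨W, hW, this.2 z hz⟩
    intro W hW
    have := mT0' W hW _ h1
    rw [mem_sep] at this
    exact this.2
  -- comparability is inherited by the step
  have hstep : ∀ C, C ∈ T0 → (∀ W, W ∈ T0 → sub W C ∨ sub C W) →
      ∀ W, W ∈ T0 → sub W C ∨ sub (un C (sing (Γ C))) W := by
    intro C hC hcmp
    have h1 : Tow Γ W0 (sep T0 (fun W => sub W C ∨ sub (un C (sing (Γ C))) W)) := by
      refine ⟨?_, ?_, ?_⟩
      · rw [mem_sep]; exact ⟨tT0.1, Or.inl (hbot C hC)⟩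
      · intro W hW
        rw [mem_sep] at hW ⊢
        have hφ := tT0.2.1 W hW.1
        refine ⟨hφ, ?_⟩
        rcases hW.2 with h | h
        · by_cases hWC : sub C W
          · have : W = C := sub_antisymm h hWC
            subst this
            exact Or.inr (sub_refl _)
          · left
            rcases hcmp _ hφ with h' | h'
            · exact h'
            · -- C ⊆ W ∪ {Γ W}, C not ⊆ W
              have : ∃ c, c ∈ C ∧ ¬ c ∈ W := by
                by_contra hcon
                push Not at hcon
                exact hWC hcon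
              obtain ⟨c, hc, hcW⟩ := this
              have hc' := h' c hc
              rw [mem_un, mem_sing] at hc'
              have hcΓ : c = Γ W := by
                rcases hc' with h1 | h1
                · exact absurd h1 hcW
                · exact h1
              intro z hz
              rw [mem_un, mem_sing] at hz
              rcases hz with hz | rfl
              · exact h z hz
              · rw [← hcΓ]; exact hc
        · right
          intro z hz
          rw [mem_un]
          exact Or.inl (h z hz)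
      · intro K hK hne hch
        rw [mem_sep]
        refine ⟨tT0.2.2 K (fun W hW => ?_) hne hch, ?_⟩
        · have := hK W hW; rw [mem_sep] at this; exact this.1
        · by_cases hall : ∀ W, W ∈ K → sub W C
          · left
            intro z hz
            rw [mem_sU] at hz
            obtain ⟨W, hW, hz⟩ := hz
            exact hall W hW z hz
          · push Not at hall
            obtain ⟨W, hW, hWC⟩ := hall
            have := hK W hW; rw [mem_sep] at this
            rcases this.2 with h | h
            · exact absurd h hWC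
            · right
              intro z hz
              rw [mem_sU]; exact ⟨W, hW, h z hz⟩
    intro W hW
    have := mT0' W hW _ h1
    rw [mem_sep] at this
    exact this.2
  -- all members are comparable
  have hcmp : ∀ C, C ∈ T0 → ∀ W, W ∈ T0 → sub W C ∨ sub C W := by
    have h1 : Tow Γ W0 (sep T0 (fun C => ∀ W, W ∈ T0 → sub W C ∨ sub C W)) := by
      refine ⟨?_, ?_, ?_⟩
      · rw [mem_sep]; exact ⟨tT0.1, fun W hW => Or.inr (hbot W hW)⟩
      · intro C hC
        rw [mem_sep] at hC ⊢
        refine ⟨tT0.2.1 C hC.1, fun W hW => ?_⟩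
        rcases hstep C hC.1 hC.2 W hW with h | h
        · left
          intro z hz
          rw [mem_un]; exact Or.inl (h z hz)
        · exact Or.inr h
      · intro K hK hne hch
        rw [mem_sep]
        refine ⟨tT0.2.2 K (fun W hW => ?_) hne hch, fun W hW => ?_⟩
        · have := hK W hW; rw [mem_sep] at this; exact this.1
        · by_cases hall : ∀ C, C ∈ K → sub C W
          · right
            intro z hz
            rw [mem_sU] at hz
            obtain ⟨C, hC, hz⟩ := hz
            exact hall C hC z hz
          · push Not at hall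
            obtain ⟨C, hC, hCW⟩ := hall
            have := hK C hC; rw [mem_sep] at this
            rcases this.2 W hW with h | h
            · left
              intro z hz
              rw [mem_sU]; exact ⟨C, hC, h z hz⟩
            · exact absurd h hCW
    intro C hC W hW
    have := mT0' C hC _ h1
    rw [mem_sep] at this
    exact this.2 W hW
  have hch : Chn T0 := by
    intro W hW W' hW'
    exact hcmp W' hW' W hW
  have hU : sU T0 ∈ T0 := tT0.2.2 T0 (sub_refl _) ⟨W0, tT0.1⟩ hch
  refine ⟨sU T0, ((mT0 _).1 hU).1, ?_⟩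
  have h2 := tT0.2.1 _ hU
  rw [mem_sU]
  exact ⟨_, h2, by simp⟩

end Pool.Agent.ZFM
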